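import Pool.Agent.V11330.SL.Net

open MeasureTheory ProbabilityTheory

namespace Pool.SL

variable {Q : Par} {τ : Tie}

lemma Par.ltn (Q : Par) (σ : Bool) : Q.w σ (!σ) < Q.w (!σ) (!σ) := by
  have := Q.lt (!σ)
  rwa [Bool.not_not] at this

lemma lik_union (S : Net) {A V F : Finset ℕ} {n : ℕ} {s : Sig} (hV : V ⊆ Finset.range n)
    (hAV : A ⊆ V) (hF : ∀ k ∈ F, n ≤ k ∧ S.N k = A) (ha : Amb Q (act Q τ S.N) A s) (t : Bool) :
    lik Q (act Q τ S.N) (V ∪ F) s t
      = lik Q (act Q τ S.N) V s t * ∏ k ∈ F, Q.w t (s k) := by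
  have h1 : view (act Q τ S.N) (V ∪ F) s
      = view (act Q τ S.N) V s ∩ {s' | ∀ k ∈ F, s' k = s k} := by
    ext s'
    constructor
    · intro h
      have h2 : s' ∈ view (act Q τ S.N) V s := view_anti Finset.subset_union_left s h
      refine ⟨h2, fun k hk => ?_⟩
      have h3 : Amb Q (act Q τ S.N) A s' := ha.of_mem Q (view_anti hAV s h2)
      have h4 := h k (Finset.mem_union_right _ hk)
      rwa [act_fresh S (hF k hk).2 h3, act_fresh S (hF k hk).2 ha] at h4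
    · rintro ⟨h2, h3⟩ k hk
      rcases Finset.mem_union.1 hk with hk | hk
      · exact h2 k hk
      · have h4 : Amb Q (act Q τ S.N) A s' := ha.of_mem Q (view_anti hAV s h2)
        rw [act_fresh S (hF k hk).2 h4, act_fresh S (hF k hk).2 ha]
        exact h3 k hk
  unfold lik
  rw [h1, Dep.indep Q (dep_view Q τ S hV s) (dep_cyl F s) ?_ t, P_cyl]
  rw [Finset.disjoint_left]
  intro k hk hk'
  have := (hF k hk').1
  have := Finset.mem_range.1 hk
  omega

lemma prod_ineq (Q : Par) (σ : Bool) (F : Finset ℕ) (s : Sig) :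
    (∏ k ∈ F, Q.w σ (s k)) * Q.w (!σ) σ ^ F.card
      ≤ Q.w σ σ ^ F.card * ∏ k ∈ F, Q.w (!σ) (s k) := by
  rw [← Finset.prod_const, ← Finset.prod_const, ← Finset.prod_mul_distrib,
    ← Finset.prod_mul_distrib]
  refine Finset.prod_le_prod (fun k _ => (mul_pos (Q.pos _ _) (Q.pos _ _)).le) fun k _ => ?_
  have h1 := Q.lt σ
  have h2 := Q.ltn σ
  have h3 := Q.pos (!σ) σ
  have h4 := Q.pos σ (!σ)
  have h5 := Q.pos σ σ
  have h6 := Q.pos (!σ) (!σ)
  by_cases hb : s k = σ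
  · rw [hb]
  · have : s k = !σ := by
      cases hs : s k <;> cases σ <;> simp_all
    rw [this]
    nlinarith

/-- the three properties of a block agent with own signal index in `F` -/
lemma amp_A1 {σ : Bool} {Lo Lz : ℝ} (hLz : 0 < Lz) {F : Finset ℕ} {s : Sig}
    (h : Lo * Q.w σ σ ^ F.card < Lz * Q.w (!σ) σ ^ F.card) :
    Lo * ∏ k ∈ F, Q.w σ (s k) < Lz * ∏ k ∈ F, Q.w (!σ) (s k) := by
  have h0 : 0 < ∏ k ∈ F, Q.w (!σ) (s k) := Finset.prod_pos fun k _ => Q.pos _ _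
  have h0' : 0 < ∏ k ∈ F, Q.w σ (s k) := Finset.prod_pos fun k _ => Q.pos _ _
  have h1 := prod_ineq Q σ F s
  have h2 : 0 < Q.w (!σ) σ ^ F.card := pow_pos (Q.pos _ _) _
  rcases le_or_gt Lo 0 with hLo | hLo
  · have : Lo * ∏ k ∈ F, Q.w σ (s k) ≤ 0 := mul_nonpos_of_nonpos_of_nonneg hLo h0'.le
    have : 0 < Lz * ∏ k ∈ F, Q.w (!σ) (s k) := mul_pos hLz h0
    linarith
  · have h3 : (Lo * ∏ k ∈ F, Q.w σ (s k)) * Q.w (!σ) σ ^ F.card
        < (Lz * ∏ k ∈ F, Q.w (!σ) (s k)) * Q.w (!σ) σ ^ F.card := by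
      calc (Lo * ∏ k ∈ F, Q.w σ (s k)) * Q.w (!σ) σ ^ F.card
          = Lo * ((∏ k ∈ F, Q.w σ (s k)) * Q.w (!σ) σ ^ F.card) := by ring
        _ ≤ Lo * (Q.w σ σ ^ F.card * ∏ k ∈ F, Q.w (!σ) (s k)) :=
            mul_le_mul_of_nonneg_left h1 hLo.le
        _ = (Lo * Q.w σ σ ^ F.card) * ∏ k ∈ F, Q.w (!σ) (s k) := by ring
        _ < (Lz * Q.w (!σ) σ ^ F.card) * ∏ k ∈ F, Q.w (!σ) (s k) :=
            mul_lt_mul_of_pos_right h h0
        _ = (Lz * ∏ k ∈ F, Q.w (!σ) (s k)) * Q.w (!σ) σ ^ F.card := by ring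
    exact lt_of_mul_lt_mul_right h3 h2.le

/-- one more agent, who sees `V` and `d` new undecided agents -/
lemma copy {ε : ℝ} (S : Net) (A V : Finset ℕ) (hAV : A ⊆ V) (hV : V ⊆ Finset.range S.n)
    (hA : Acc Q (act Q τ S.N) A ε) (hVa : Acc Q (act Q τ S.N) V ε) (d : ℕ) :
    ∃ S' : Net, Step Q τ ε S S' ∧ S'.n = S.n + d + 1 ∧
      (∀ k ∈ Finset.Ico S.n (S.n + d), S'.N k = A) ∧
      S'.N (S.n + d) = V ∪ Finset.Ico S.n (S.n + d) := by
  obtain ⟨S1, h1, h2, h3⟩ := supply S A (hAV.trans hV) hA d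
  have hV1 : V ∪ Finset.Ico S.n (S.n + d) ⊆ Finset.range S1.n := by
    intro k hk
    rcases Finset.mem_union.1 hk with hk | hk
    · exact h1.range (hV hk)
    · rw [Finset.mem_range, h2]; exact (Finset.mem_Ico.1 hk).2
  have h4 := step_app (ε := ε) S1 _ hV1
    ((h1.acc hV hVa).mono Q Finset.subset_union_left le_rfl)
  refine ⟨_, h1.trans h4, ?_, fun k hk => ?_, ?_⟩
  · show S1.n + 1 = _
    omega
  · have hk' : k < S1.n := by rw [h2]; exact (Finset.mem_Ico.1 hk).2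
    rw [h4.2.1 k hk']
    exact h3 k (by rw [h2]; exact hk)
  · exact if_pos h2.symm

lemma copy_props {S S' : Net} {A V : Finset ℕ} (hAV : A ⊆ V) {n d : ℕ}
    (hV : V ⊆ Finset.range n)
    (h1 : ∀ k ∈ Finset.Ico n (n + d), S'.N k = A)
    (h2 : S'.N (n + d) = V ∪ Finset.Ico n (n + d))
    (hL : ∀ s t, lik Q (act Q τ S'.N) V s t = lik Q (act Q τ S.N) V s t)
    (σ : Bool) (s : Sig) (ha : Amb Q (act Q τ S'.N) A s) :
    (lik Q (act Q τ S.N) V s σ * Q.w σ σ ^ (d + 1)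
        < lik Q (act Q τ S.N) V s (!σ) * Q.w (!σ) σ ^ (d + 1) →
      act Q τ S'.N (n + d) s = !σ) ∧
    (lik Q (act Q τ S.N) V s (!σ) * Q.w (!σ) σ ^ (d + 1)
        < lik Q (act Q τ S.N) V s σ * Q.w σ σ ^ (d + 1) →
      (∀ k ∈ Finset.Ico n (n + d + 1), s k = σ) →
      act Q τ S'.N (n + d) s = σ) ∧
    (lik Q (act Q τ S.N) V s σ * Q.w σ (!σ) ^ d * Q.w σ σ
        < lik Q (act Q τ S.N) V s (!σ) * Q.w (!σ) (!σ) ^ d * Q.w (!σ) σ →
      (∀ k ∈ Finset.Ico n (n + d), s k = !σ) →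
      act Q τ S'.N (n + d) s = !σ) := by
  set Lo := lik Q (act Q τ S.N) V s σ with hLo
  set Lz := lik Q (act Q τ S.N) V s (!σ) with hLz
  have hLop : 0 < Lo := lik_pos Q τ S V s σ
  have hLzp : 0 < Lz := lik_pos Q τ S V s (!σ)
  have hu : ∀ t, lik Q (act Q τ S'.N) (V ∪ Finset.Ico n (n + d)) s t
      = lik Q (act Q τ S.N) V s t * ∏ k ∈ Finset.Ico n (n + d), Q.w t (s k) := fun t => by
    rw [lik_union S' hV hAV (fun k hk => ⟨(Finset.mem_Ico.1 hk).1, h1 k hk⟩) ha t, hL]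
  have hprod : ∀ t, (∏ k ∈ Finset.Ico n (n + d + 1), Q.w t (s k))
      = (∏ k ∈ Finset.Ico n (n + d), Q.w t (s k)) * Q.w t (s (n + d)) := fun t =>
    Finset.prod_Ico_succ_top (by omega) _
  have hcard : (Finset.Ico n (n + d + 1)).card = d + 1 := by simp; omega
  have hcard' : (Finset.Ico n (n + d)).card = d := by simp
  have hact : act Q τ S'.N (n + d) s
      = dec Q τ (act Q τ S'.N) (n + d) (V ∪ Finset.Ico n (n + d)) s := by
    rw [act_eq Q τ (S'.sub _), h2]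
  -- decision rules
  have hz : Lo * (∏ k ∈ Finset.Ico n (n + d + 1), Q.w σ (s k))
      < Lz * (∏ k ∈ Finset.Ico n (n + d + 1), Q.w (!σ) (s k)) →
      act Q τ S'.N (n + d) s = !σ := by
    intro h
    rw [hact]
    refine dec_of_lt Q τ (!σ) ?_
    rw [Bool.not_not, hu, hu]
    rw [hprod, hprod] at h
    linarith
  have ho : Lz * (∏ k ∈ Finset.Ico n (n + d + 1), Q.w (!σ) (s k))
      < Lo * (∏ k ∈ Finset.Ico n (n + d + 1), Q.w σ (s k)) →
      act Q τ S'.N (n + d) s = σ := by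
    intro h
    rw [hact]
    refine dec_of_lt Q τ σ ?_
    rw [hu, hu]
    rw [hprod, hprod] at h
    linarith
  refine ⟨fun h => hz ?_, fun h hs => ho ?_, fun h hs => hz ?_⟩
  · refine amp_A1 hLzp ?_
    rw [hcard]; exact h
  · have h3 : ∀ t, (∏ k ∈ Finset.Ico n (n + d + 1), Q.w t (s k)) = Q.w t σ ^ (d + 1) :=
      fun t => by
        rw [Finset.prod_congr rfl (g := fun _ => Q.w t σ) (fun k hk => by rw [hs k hk]),
          Finset.prod_const, hcard]
    rw [h3, h3]; exact h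
  · have h3 : ∀ t, (∏ k ∈ Finset.Ico n (n + d), Q.w t (s k)) = Q.w t (!σ) ^ d :=
      fun t => by
        rw [Finset.prod_congr rfl (g := fun _ => Q.w t (!σ)) (fun k hk => by rw [hs k hk]),
          Finset.prod_const, hcard']
    rw [hprod, hprod, h3, h3]
    have e1 := Q.lt σ
    have e2 := Q.ltn σ
    have e3 := Q.pos (!σ) σ
    have e4 := Q.pos σ (!σ)
    have e5 := Q.pos σ σ
    have e6 := Q.pos (!σ) (!σ)
    by_cases hb : s (n + d) = σ
    · rw [hb]; linarith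
    · have : s (n + d) = !σ := by
        cases hs : s (n + d) <;> cases σ <;> simp_all
      rw [this]
      have f1 : 0 < Lo * Q.w σ (!σ) ^ d := mul_pos hLop (pow_pos e4 _)
      have f2 : 0 < Lz * Q.w (!σ) (!σ) ^ d := mul_pos hLzp (pow_pos e6 _)
      have f3 : Lo * Q.w σ (!σ) ^ d < Lz * Q.w (!σ) (!σ) ^ d := by
        by_contra hcon
        have := not_lt.1 hcon
        have : Lz * Q.w (!σ) (!σ) ^ d * Q.w (!σ) σ ≤ Lo * Q.w σ (!σ) ^ d * Q.w σ σ :=
          mul_le_mul this e1.le e3.le f1.le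
        linarith
      calc Lo * (Q.w σ (!σ) ^ d * Q.w σ (!σ)) = (Lo * Q.w σ (!σ) ^ d) * Q.w σ (!σ) := by ring
        _ < (Lz * Q.w (!σ) (!σ) ^ d) * Q.w σ (!σ) := mul_lt_mul_of_pos_right f3 e4
        _ ≤ (Lz * Q.w (!σ) (!σ) ^ d) * Q.w (!σ) (!σ) := mul_le_mul_of_nonneg_left e2.le f2.le
        _ = Lz * (Q.w (!σ) (!σ) ^ d * Q.w (!σ) (!σ)) := by ring

/-- The three properties of a block `D` of agents with view `V` and threshold `d`. -/
def BlockProp (Q : Par) (τ : Tie) (σ : Bool) (S S' : Net) (A V : Finset ℕ) (d : ℕ)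
    (D X : Finset ℕ) (Bad : Set Sig) : Prop :=
  ∀ s, Amb Q (act Q τ S.N) A s →
    (lik Q (act Q τ S.N) V s σ * Q.w σ σ ^ (d + 1)
        < lik Q (act Q τ S.N) V s (!σ) * Q.w (!σ) σ ^ (d + 1) →
      ∀ k ∈ D, act Q τ S'.N k s = !σ) ∧
    (lik Q (act Q τ S.N) V s (!σ) * Q.w (!σ) σ ^ (d + 1)
        < lik Q (act Q τ S.N) V s σ * Q.w σ σ ^ (d + 1) →
      (∀ k ∈ D, act Q τ S'.N k s = !σ) → s ∈ Bad) ∧
    (lik Q (act Q τ S.N) V s σ * Q.w σ (!σ) ^ d * Q.w σ σ
        < lik Q (act Q τ S.N) V s (!σ) * Q.w (!σ) (!σ) ^ d * Q.w (!σ) σ →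
      (∀ k ∈ X, s k = !σ) → ∀ k ∈ D, act Q τ S'.N k s = !σ)

lemma BlockProp.step {σ : Bool} {ε : ℝ} {S S' S'' : Net} {A V : Finset ℕ} {d : ℕ}
    {D X : Finset ℕ} {Bad : Set Sig} (h : BlockProp Q τ σ S S' A V d D X Bad)
    (h' : Step Q τ ε S' S'') (hD : D ⊆ Finset.range S'.n) :
    BlockProp Q τ σ S S'' A V d D X Bad := by
  intro s hs
  obtain ⟨h1, h2, h3⟩ := h s hs
  have h4 : ∀ k ∈ D, act Q τ S''.N k s = act Q τ S'.N k s := fun k hk => by
    rw [h'.act_mem hD k hk]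
  refine ⟨fun h5 k hk => by rw [h4 k hk]; exact h1 h5 k hk,
    fun h5 h6 => h2 h5 fun k hk => by rw [← h4 k hk]; exact h6 k hk,
    fun h5 h6 k hk => by rw [h4 k hk]; exact h3 h5 h6 k hk⟩

lemma block (σ : Bool) {ε : ℝ} (S : Net) (A V : Finset ℕ) (hAV : A ⊆ V)
    (hV : V ⊆ Finset.range S.n)
    (hA : Acc Q (act Q τ S.N) A ε) (hVa : Acc Q (act Q τ S.N) V ε) (d M : ℕ) :
    ∃ (S' : Net) (D X : Finset ℕ) (Bad : Set Sig), Step Q τ ε S S' ∧
      D ⊆ Finset.Ico S.n S'.n ∧ X ⊆ Finset.Ico S.n S'.n ∧ (∀ k ∈ X, S'.N k = A) ∧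
      Dep (Finset.Ico S.n S'.n) Bad ∧
      (∀ t, (P Q t).real Bad ≤ (1 - Q.w t σ ^ (d + 1)) ^ M) ∧
      BlockProp Q τ σ S S' A V d D X Bad := by
  induction M with
  | zero =>
    refine ⟨S, ∅, ∅, Set.univ, Step.refl _ _, by simp, by simp, by simp, Dep.univ _,
      fun t => by simp, fun s hs => ⟨by simp, by simp, by simp⟩⟩
  | succ M ih =>
    obtain ⟨S1, D, X, Bad, h1, h2, h3, h4, h5, h6, h7⟩ := ih
    have hV1 := hV.trans h1.range
    obtain ⟨S2, g1, g2, g3, g4⟩ := copy S1 A V hAV hV1 (h1.acc (hAV.trans hV) hA)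
      (h1.acc hV hVa) d
    have hDr : D ⊆ Finset.range S1.n := fun k hk =>
      Finset.mem_range.2 (Finset.mem_Ico.1 (h2 hk)).2
    have hIco : Finset.Ico S.n S1.n ⊆ Finset.Ico S.n S2.n :=
      Finset.Ico_subset_Ico le_rfl g1.1
    have hIco2 : Finset.Ico S1.n S2.n ⊆ Finset.Ico S.n S2.n :=
      Finset.Ico_subset_Ico h1.1 le_rfl
    have hIco3 : Finset.Ico S1.n (S1.n + d) ⊆ Finset.Ico S1.n S2.n :=
      Finset.Ico_subset_Ico le_rfl (by omega)
    refine ⟨S2, insert (S1.n + d) D, X ∪ Finset.Ico S1.n (S1.n + d),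
      Bad ∩ {s | ∀ k ∈ Finset.Ico S1.n (S1.n + d + 1), s k = σ}ᶜ, h1.trans g1, ?_, ?_, ?_, ?_,
      ?_, ?_⟩
    · intro k hk
      rcases Finset.mem_insert.1 hk with hk | hk
      · rw [hk, Finset.mem_Ico]
        have := h1.1
        omega
      · exact hIco (h2 hk)
    · exact Finset.union_subset (h3.trans hIco) (hIco3.trans hIco2)
    · intro k hk
      rcases Finset.mem_union.1 hk with hk | hk
      · rw [g1.2.1 k (Finset.mem_Ico.1 (h3 hk)).2]
        exact h4 k hk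
      · exact g3 k hk
    · refine (h5.mono hIco).inter (((dep_cyl _ (fun _ => σ)).mono ?_).compl)
      refine (Finset.Ico_subset_Ico le_rfl (by omega)).trans hIco2
    · intro t
      have e1 : Dep (Finset.Ico S1.n (S1.n + d + 1))
          {s : Sig | ∀ k ∈ Finset.Ico S1.n (S1.n + d + 1), s k = σ} :=
        dep_cyl _ (fun _ => σ)
      rw [Dep.indep Q h5 e1.compl ?_ t, measureReal_compl e1.measurable,
        P_cyl Q t _ (fun _ => σ)]
      · simp only [Finset.prod_const, Nat.card_Ico, probReal_univ]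
        rw [show S1.n + d + 1 - S1.n = d + 1 by omega, pow_succ]
        have e2 : 0 ≤ 1 - Q.w t σ ^ (d + 1) :=
          sub_nonneg.2 (pow_le_one₀ (Q.pos _ _).le (Q.lt1 _ _).le)
        exact mul_le_mul_of_nonneg_right (h6 t) e2
      · rw [Finset.disjoint_left]
        intro k hk hk'
        rw [Finset.mem_Ico] at hk hk'
        omega
    · intro s hs
      have hs1 : Amb Q (act Q τ S1.N) A s := h1.amb (hAV.trans hV) hs
      have hs2 : Amb Q (act Q τ S2.N) A s := g1.amb (hAV.trans hV1) hs1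
      have h7' := (h7.step g1 hDr) s hs
      have c := copy_props (S := S) hAV hV1 g3 g4
        (fun s t => by rw [g1.lik_eq hV1, h1.lik_eq hV]) σ s hs2
      refine ⟨fun h k hk => ?_, fun h h' => ?_, fun h h' k hk => ?_⟩
      · rcases Finset.mem_insert.1 hk with hk | hk
        · rw [hk]; exact c.1 h
        · exact h7'.1 h k hk
      · refine ⟨h7'.2.1 h fun k hk => h' k (Finset.mem_insert_of_mem hk), fun hall => ?_⟩
        have e1 := c.2.1 h hall
        have e2 := h' _ (Finset.mem_insert_self _ _)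
        rw [e1] at e2
        cases σ <;> simp at e2
      · rcases Finset.mem_insert.1 hk with hk | hk
        · rw [hk]
          exact c.2.2 h fun k hk => h' k (Finset.mem_union_right _ hk)
        · exact h7'.2.2 h (fun k hk => h' k (Finset.mem_union_left _ hk)) k hk

lemma exists_pow_small (Q : Par) (σ : Bool) (d : ℕ) {δ : ℝ} (hδ : 0 < δ) :
    ∃ M : ℕ, ∀ t, (1 - Q.w t σ ^ (d + 1)) ^ M ≤ δ := by
  have h : ∀ t, ∃ M : ℕ, ∀ m ≥ M, (1 - Q.w t σ ^ (d + 1)) ^ m ≤ δ := fun t => by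
    have h1 : 0 ≤ 1 - Q.w t σ ^ (d + 1) :=
      sub_nonneg.2 (pow_le_one₀ (Q.pos _ _).le (Q.lt1 _ _).le)
    have h2 : 1 - Q.w t σ ^ (d + 1) < 1 := by
      have := pow_pos (Q.pos t σ) (d + 1)
      linarith
    have := (tendsto_pow_atTop_nhds_zero_of_lt_one h1 h2).eventually (gt_mem_nhds hδ)
    obtain ⟨M, hM⟩ := Filter.eventually_atTop.1 this
    exact ⟨M, fun m hm => (hM m hm).le⟩
  obtain ⟨M1, h1⟩ := h true
  obtain ⟨M2, h2⟩ := h false
  refine ⟨max M1 M2, fun t => ?_⟩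
  cases t
  · exact h2 _ (le_max_right _ _)
  · exact h1 _ (le_max_left _ _)

/-- a finite family of blocks -/
lemma family (σ : Bool) {ε δ : ℝ} (hδ : 0 < δ) {ι : Type} [DecidableEq ι] (S : Net)
    (A : Finset ℕ) (hA : Acc Q (act Q τ S.N) A ε) (V : ι → Finset ℕ) (d : ι → ℕ)
    (J : Finset ι) (hAV : ∀ j ∈ J, A ⊆ V j) (hV : ∀ j ∈ J, V j ⊆ Finset.range S.n)
    (hVa : ∀ j ∈ J, Acc Q (act Q τ S.N) (V j) ε) :
    ∃ (S' : Net) (D : ι → Finset ℕ) (X : Finset ℕ) (Bad : ι → Set Sig), Step Q τ ε S S' ∧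
      (∀ j ∈ J, D j ⊆ Finset.Ico S.n S'.n) ∧ X ⊆ Finset.Ico S.n S'.n ∧ (∀ k ∈ X, S'.N k = A) ∧
      (∀ j ∈ J, Dep (Finset.Ico S.n S'.n) (Bad j)) ∧
      (∀ j ∈ J, ∀ t, (P Q t).real (Bad j) ≤ δ) ∧
      ∀ j ∈ J, BlockProp Q τ σ S S' A (V j) (d j) (D j) X (Bad j) := by
  induction J using Finset.induction_on with
  | empty =>
    exact ⟨S, fun _ => ∅, ∅, fun _ => ∅, Step.refl _ _, by simp, by simp, by simp, by simp,
      by simp, by simp⟩
  | insert i J hi ih =>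
    obtain ⟨S1, D, X, Bad, h1, h2, h3, h4, h5, h6, h7⟩ :=
      ih (fun j hj => hAV j (Finset.mem_insert_of_mem hj))
        (fun j hj => hV j (Finset.mem_insert_of_mem hj))
        (fun j hj => hVa j (Finset.mem_insert_of_mem hj))
    have hi' := Finset.mem_insert_self i J
    have hAr : A ⊆ Finset.range S.n := (hAV i hi').trans (hV i hi')
    obtain ⟨M, hM⟩ := exists_pow_small Q σ (d i) hδ
    obtain ⟨S2, D2, X2, Bad2, g1, g2, g3, g4, g5, g6, g7⟩ :=
      block σ S1 A (V i) (hAV i hi') ((hV i hi').trans h1.range) (h1.acc hAr hA)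
        (h1.acc (hV i hi') (hVa i hi')) (d i) M
    have hIco : Finset.Ico S.n S1.n ⊆ Finset.Ico S.n S2.n :=
      Finset.Ico_subset_Ico le_rfl g1.1
    have hIco2 : Finset.Ico S1.n S2.n ⊆ Finset.Ico S.n S2.n :=
      Finset.Ico_subset_Ico h1.1 le_rfl
    refine ⟨S2, fun j => if j = i then D2 else D j, X ∪ X2,
      fun j => if j = i then Bad2 else Bad j, h1.trans g1, ?_, ?_, ?_, ?_, ?_, ?_⟩
    · intro j hj
      by_cases hji : j = i
      · simp only [hji, if_true]; exact g2.trans hIco2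
      · simp only [hji, if_false]
        exact (h2 j (Finset.mem_of_mem_insert_of_ne hj hji)).trans hIco
    · exact Finset.union_subset (h3.trans hIco) (g3.trans hIco2)
    · intro k hk
      rcases Finset.mem_union.1 hk with hk | hk
      · rw [g1.2.1 k (Finset.mem_Ico.1 (h3 hk)).2]
        exact h4 k hk
      · exact g4 k hk
    · intro j hj
      by_cases hji : j = i
      · simp only [hji, if_true]; exact g5.mono hIco2
      · simp only [hji, if_false]
        exact (h5 j (Finset.mem_of_mem_insert_of_ne hj hji)).mono hIco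
    · intro j hj t
      by_cases hji : j = i
      · simp only [hji, if_true]; exact (g6 t).trans (hM t)
      · simp only [hji, if_false]
        exact h6 j (Finset.mem_of_mem_insert_of_ne hj hji) t
    · intro j hj
      by_cases hji : j = i
      · simp only [hji, if_true]
        intro s hs
        have hs1 : Amb Q (act Q τ S1.N) A s := h1.amb hAr hs
        obtain ⟨e1, e2, e3⟩ := g7 s hs1
        rw [h1.lik_eq (hV i hi'), h1.lik_eq (hV i hi')] at e1 e2 e3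
        exact ⟨e1, e2, fun h h' => e3 h fun k hk => h' k (Finset.mem_union_right _ hk)⟩
      · simp only [hji, if_false]
        have hj' := Finset.mem_of_mem_insert_of_ne hj hji
        have hDr : D j ⊆ Finset.range S1.n := fun k hk =>
          Finset.mem_range.2 (Finset.mem_Ico.1 (h2 j hj' hk)).2
        intro s hs
        obtain ⟨e1, e2, e3⟩ := (h7 j hj').step g1 hDr s hs
        exact ⟨e1, e2, fun h h' => e3 h fun k hk => h' k (Finset.mem_union_left _ hk)⟩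

end Pool.SL
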