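import Mathlib

open MeasureTheory ProbabilityTheory

namespace Pool.SL

/-- the sequence of all private signals -/
abbrev Sig := ℕ → Bool

/-- A binary signal structure.  `w t b` is the probability that a signal equals `b` in state `t`;
the signal `b` is more likely in the state `b`. -/
structure Par where
  w : Bool → Bool → ℝ
  pos : ∀ t b, 0 < w t b
  sum : ∀ t, w t true + w t false = 1
  lt : ∀ b, w (!b) b < w b b

variable (Q : Par)

lemma Par.sum' (t b : Bool) : Q.w t b + Q.w t (!b) = 1 := by
  have h := Q.sum t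
  cases b <;> simp <;> linarith

lemma Par.lt1 (t b : Bool) : Q.w t b < 1 := by
  have h := Q.sum' t b
  have := Q.pos t (!b)
  linarith

/-- the law of one signal -/
noncomputable def mu (t : Bool) : Measure Bool :=
  ENNReal.ofReal (Q.w t true) • Measure.dirac true + ENNReal.ofReal (Q.w t false) • Measure.dirac false

lemma mu_singleton (t b : Bool) : mu Q t {b} = ENNReal.ofReal (Q.w t b) := by
  unfold mu
  cases b <;> simp

instance (t : Bool) : IsProbabilityMeasure (mu Q t) := by
  constructor
  unfold mu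
  simp only [Measure.coe_add, Measure.coe_smul, Pi.add_apply, Pi.smul_apply, measure_univ,
    smul_eq_mul, mul_one]
  rw [← ENNReal.ofReal_add (Q.pos t true).le (Q.pos t false).le, Q.sum t, ENNReal.ofReal_one]

/-- the law of the signal sequence in state `t` -/
noncomputable def P (t : Bool) : Measure Sig := Measure.infinitePi (fun _ : ℕ => mu Q t)

instance (t : Bool) : IsProbabilityMeasure (P Q t) := by
  unfold P; infer_instance

lemma P_cyl (t : Bool) (F : Finset ℕ) (x : Sig) :
    (P Q t).real {s | ∀ i ∈ F, s i = x i} = ∏ i ∈ F, Q.w t (x i) := by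
  have h : {s : Sig | ∀ i ∈ F, s i = x i} = Set.pi (F : Set ℕ) (fun i => {x i}) := by
    ext s; simp [Set.mem_pi]
  rw [h, Measure.real]
  unfold P
  rw [Measure.infinitePi_pi _ (fun i _ => measurableSet_singleton _)]
  rw [ENNReal.toReal_prod]
  refine Finset.prod_congr rfl fun i _ => ?_
  rw [mu_singleton, ENNReal.toReal_ofReal (Q.pos _ _).le]

/-- the event `E` only depends on the signals with index in `I` -/
def Dep (I : Finset ℕ) (E : Set Sig) : Prop :=
  ∀ s s' : Sig, (∀ i ∈ I, s i = s' i) → (s ∈ E ↔ s' ∈ E)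

lemma Dep.mono {I J : Finset ℕ} {E : Set Sig} (h : Dep I E) (hIJ : I ⊆ J) : Dep J E :=
  fun s s' hs => h s s' fun i hi => hs i (hIJ hi)

lemma Dep.inter {I : Finset ℕ} {E F : Set Sig} (h : Dep I E) (h' : Dep I F) : Dep I (E ∩ F) :=
  fun s s' hs => and_congr (h s s' hs) (h' s s' hs)

lemma Dep.union {I : Finset ℕ} {E F : Set Sig} (h : Dep I E) (h' : Dep I F) : Dep I (E ∪ F) :=
  fun s s' hs => or_congr (h s s' hs) (h' s s' hs)

lemma Dep.compl {I : Finset ℕ} {E : Set Sig} (h : Dep I E) : Dep I Eᶜ :=
  fun s s' hs => not_congr (h s s' hs)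

lemma Dep.univ (I : Finset ℕ) : Dep I (Set.univ : Set Sig) := fun _ _ _ => Iff.rfl

lemma dep_cyl (F : Finset ℕ) (x : Sig) : Dep F {s | ∀ i ∈ F, s i = x i} := by
  intro s s' h
  simp only [Set.mem_ofPred_eq]
  exact forall₂_congr fun i hi => by rw [h i hi]

lemma Dep.eq_preimage {I : Finset ℕ} {E : Set Sig} (h : Dep I E) :
    E = (fun (s : Sig) (i : I) => s i) ⁻¹' ((fun (s : Sig) (i : I) => s i) '' E) := by
  ext s
  constructor
  · intro hs; exact ⟨s, hs, rfl⟩
  · rintro ⟨s', hs', he⟩
    refine (h s' s fun i hi => ?_).1 hs'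
    exact congrFun he ⟨i, hi⟩

lemma Dep.measurable {I : Finset ℕ} {E : Set Sig} (h : Dep I E) : MeasurableSet E := by
  rw [h.eq_preimage]
  refine (measurable_pi_lambda _ fun i => measurable_pi_apply _) ?_
  exact Set.Finite.measurableSet (Set.toFinite _)

lemma Dep.indep {I J : Finset ℕ} {E F : Set Sig} (h : Dep I E) (h' : Dep J F)
    (hd : Disjoint I J) (t : Bool) :
    (P Q t).real (E ∩ F) = (P Q t).real E * (P Q t).real F := by
  have h1 : iIndepFun (fun (i : ℕ) (s : Sig) => s i) (P Q t) :=
    iIndepFun_infinitePi (P := fun _ : ℕ => mu Q t) (X := fun _ b => b) (fun _ => measurable_id)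
  have h2 := h1.indepFun_finset I J hd (fun i => measurable_pi_apply i)
  rw [h.eq_preimage, h'.eq_preimage, Measure.real, Measure.real, Measure.real,
    h2.measure_inter_preimage_eq_mul _ _ (Set.Finite.measurableSet (Set.toFinite _))
      (Set.Finite.measurableSet (Set.toFinite _)), ENNReal.toReal_mul]

end Pool.SL
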