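import Pool.Agent.V11330.SL.Gadget2

open MeasureTheory ProbabilityTheory

namespace Pool.SL

variable {Q : Par} {τ : Tie}

/-- changing only late signals keeps the early actions -/
lemma mem_view_of_eq_below (S : Net) {B : Finset ℕ} {n : ℕ} (hB : B ⊆ Finset.range n)
    {s s' : Sig} (h : ∀ i < n, s' i = s i) : s' ∈ view (act Q τ S.N) B s := by
  intro j hj
  have hj' := Finset.mem_range.1 (hB hj)
  exact act_dep Q τ (fun i _ => S.sub i) (fun i hi => h i (by omega))

lemma gadget (σ : Bool) {ε ε' : ℝ} (hε : ε' ≤ ε) (S : Net) (A B : Finset ℕ) (hAB : A ⊆ B)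
    (hB : B ⊆ Finset.range S.n) (hA : Acc Q (act Q τ S.N) A ε)
    (hBa : Acc Q (act Q τ S.N) B ε') (s0 : Sig) (ha : Amb Q (act Q τ S.N) A s0) :
    ∃ (S' : Net) (X : Finset ℕ), Step Q τ ε S S' ∧ X ⊆ Finset.Ico S.n S'.n ∧
      (∀ k ∈ X, S'.N k = A) ∧
      ∀ s ∈ view (act Q τ S.N) B s0, (∀ k ∈ X, s k = !σ) →
        ∃ A' ⊆ Finset.range S'.n, Acc Q (act Q τ S'.N) A' ε' ∧ Amb Q (act Q τ S'.N) A' s := by
  classical
  have eβ := Q.ltn σ
  have p1 := Q.pos (!σ) σ
  have p2 := Q.pos σ (!σ)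
  have p3 := Q.pos σ σ
  have hVo : 0 < lik Q (act Q τ S.N) B s0 σ := lik_pos Q τ S B s0 σ
  have hVz : 0 < lik Q (act Q τ S.N) B s0 (!σ) := lik_pos Q τ S B s0 (!σ)
  obtain ⟨y, hy⟩ := exists_pow_gt (a := lik Q (act Q τ S.N) B s0 (!σ) * Q.w (!σ) σ ^ 2)
    (b := lik Q (act Q τ S.N) B s0 σ * Q.w σ σ ^ 2)
    (x := Q.w (!σ) (!σ)) (y := Q.w σ (!σ)) (by positivity) (by positivity) p2 eβ
  have hAr : A ⊆ Finset.range S.n := hAB.trans hB
  obtain ⟨S1, t1, n1, N1⟩ := supply S A hAr hA y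
  set Y := Finset.Ico S.n S1.n with hY
  set s1 : Sig := fun k => if k ∈ Y then !σ else s0 k with hs1
  have hs1v : s1 ∈ view (act Q τ S1.N) B s0 := mem_view_of_eq_below S1 hB fun i hi => by
    simp only [hs1]
    rw [if_neg]
    intro h
    have := (Finset.mem_Ico.1 h).1
    omega
  have ha1 : Amb Q (act Q τ S1.N) A s0 := t1.amb hAr ha
  have ha1' : Amb Q (act Q τ S1.N) A s1 := ha1.of_mem Q (view_anti hAB s0 hs1v)
  have hcard : Y.card = y := by rw [hY, Nat.card_Ico, n1]; omega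
  have hL : ∀ t, lik Q (act Q τ S1.N) (B ∪ Y) s1 t
      = lik Q (act Q τ S.N) B s0 t * Q.w t (!σ) ^ y := by
    intro t
    rw [lik_union S1 hB hAB (fun k hk => ⟨(Finset.mem_Ico.1 hk).1, N1 k hk⟩) ha1' t,
      lik_eq_of_mem Q hs1v t, t1.lik_eq hB]
    congr 1
    rw [← hcard, ← Finset.prod_const]
    refine Finset.prod_congr rfl fun k hk => ?_
    simp only [hs1]
    rw [if_pos hk]
  have hBY : B ∪ Y ⊆ Finset.range S1.n :=
    Finset.union_subset (hB.trans t1.range) (subset_range_of_Ico (Finset.Subset.refl _))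
  obtain ⟨S2, X, t2, X1, X2, X3⟩ := gadget_vlow σ hε S1 A (B ∪ Y)
    (hAB.trans Finset.subset_union_left) hBY (t1.acc hAr hA)
    ((t1.acc hB hBa).mono Q Finset.subset_union_left le_rfl) s1 ha1' (by
      rw [hL, hL]
      calc _ = lik Q (act Q τ S.N) B s0 σ * Q.w σ σ ^ 2 * Q.w σ (!σ) ^ y := by ring
        _ ≤ _ := hy.le
        _ = _ := by ring)
  refine ⟨S2, Y ∪ X, t1.trans t2, ?_, ?_, ?_⟩
  · exact Finset.union_subset (Finset.Ico_subset_Ico le_rfl t2.1)
      (X1.trans (Finset.Ico_subset_Ico t1.1 le_rfl))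
  · intro k hk
    rcases Finset.mem_union.1 hk with hk | hk
    · rw [t2.2.1 k (Finset.mem_Ico.1 hk).2]; exact N1 k hk
    · exact X2 k hk
  · intro s hs hX
    refine X3 s ?_ (fun k hk => hX k (Finset.mem_union_right _ hk))
    have hs' : s ∈ view (act Q τ S1.N) B s0 := by rw [t1.view_eq hB]; exact hs
    intro k hk
    rcases Finset.mem_union.1 hk with hk | hk
    · rw [hs' k hk, hs1v k hk]
    · rw [act_fresh S1 (N1 k hk) (ha1.of_mem Q (view_anti hAB s0 hs')),
        act_fresh S1 (N1 k hk) ha1', hX k (Finset.mem_union_left _ hk)]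
      simp only [hs1]
      rw [if_pos hk]

variable (Q τ) in
/-- every signal sequence in `E` has an accurate view which leaves the observer undecided -/
def Cov (ε : ℝ) (S : Net) (E : Set Sig) : Prop :=
  ∀ s ∈ E, ∃ A ⊆ Finset.range S.n, Acc Q (act Q τ S.N) A ε ∧ Amb Q (act Q τ S.N) A s

lemma Cov.step {ε δ : ℝ} {S S' : Net} {E : Set Sig} (h : Cov Q τ ε S E)
    (h' : Step Q τ δ S S') : Cov Q τ ε S' E := by
  intro s hs
  obtain ⟨A, h1, h2, h3⟩ := h s hs
  exact ⟨A, h1.trans h'.range, h'.acc h1 h2, h'.amb h1 h3⟩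

lemma Cov.union {ε : ℝ} {S : Net} {E F : Set Sig} (h : Cov Q τ ε S E) (h' : Cov Q τ ε S F) :
    Cov Q τ ε S (E ∪ F) := by
  intro s hs
  rcases hs with hs | hs
  · exact h s hs
  · exact h' s hs

lemma Cov.mono {ε : ℝ} {S : Net} {E F : Set Sig} (h : Cov Q τ ε S F) (h' : E ⊆ F) :
    Cov Q τ ε S E := fun s hs => h s (h' hs)

lemma complete_aux (σ : Bool) {ε ε' : ℝ} (hε : ε' ≤ ε) (m : ℕ) :
    ∀ (S : Net) (A B : Finset ℕ) (s0 : Sig), A ⊆ B → B ⊆ Finset.range S.n →
      Acc Q (act Q τ S.N) A ε → Acc Q (act Q τ S.N) B ε' → Amb Q (act Q τ S.N) A s0 →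
      lik Q (act Q τ S.N) B s0 σ * Q.w σ (!σ) < lik Q (act Q τ S.N) B s0 (!σ) * Q.w (!σ) (!σ) →
      lik Q (act Q τ S.N) B s0 (!σ) * Q.w (!σ) σ ^ (m + 1)
        < lik Q (act Q τ S.N) B s0 σ * Q.w σ σ ^ (m + 1) →
      ∃ S' : Net, Step Q τ ε S S' ∧ Cov Q τ ε' S' (view (act Q τ S.N) B s0) := by
  classical
  have eα := Q.lt σ
  have eβ := Q.ltn σ
  have p1 := Q.pos (!σ) σ
  have p2 := Q.pos σ (!σ)
  have p3 := Q.pos σ σ
  have p4 := Q.pos (!σ) (!σ)
  induction m with
  | zero =>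
    intro S A B s0 hAB hB hA hBa ha h1 h2
    refine ⟨S, Step.refl _ _, fun s hs => ⟨B, hB, hBa, ?_⟩⟩
    refine Amb.of_mem Q (s := s0) ?_ hs
    intro b
    by_cases hb : b = σ
    · rw [hb]; simpa using h2
    · rw [bool_ne hb, Bool.not_not]; exact h1
  | succ m ih =>
    intro S A B s0 hAB hB hA hBa ha h1 h2
    have hVo : 0 < lik Q (act Q τ S.N) B s0 σ := lik_pos Q τ S B s0 σ
    have hVz : 0 < lik Q (act Q τ S.N) B s0 (!σ) := lik_pos Q τ S B s0 (!σ)
    by_cases hamb : lik Q (act Q τ S.N) B s0 (!σ) * Q.w (!σ) σ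
        < lik Q (act Q τ S.N) B s0 σ * Q.w σ σ
    · refine ⟨S, Step.refl _ _, fun s hs => ⟨B, hB, hBa, ?_⟩⟩
      refine Amb.of_mem Q (s := s0) ?_ hs
      intro b
      by_cases hb : b = σ
      · rw [hb]; exact hamb
      · rw [bool_ne hb, Bool.not_not]; exact h1
    · have hlow := not_lt.1 hamb
      have hAr : A ⊆ Finset.range S.n := hAB.trans hB
      obtain ⟨S1, X, t1, X1, X2, X3⟩ := gadget σ hε S A B hAB hB hA hBa s0 ha
      -- handle the worlds in which some new agent in `X` sees the signal `σ`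
      have key : ∀ X' : Finset ℕ, X' ⊆ X → ∃ S' : Net, Step Q τ ε S1 S' ∧
          Cov Q τ ε' S' (⋃ x ∈ X', (view (act Q τ S.N) B s0 ∩ {s | s x = σ})) := by
        intro X'
        induction X' using Finset.induction_on with
        | empty => exact fun _ => ⟨S1, Step.refl _ _, fun s hs => by simp at hs⟩
        | insert x X' hx ihX =>
          intro hsub
          obtain ⟨S2, t2, cov2⟩ := ihX fun k hk => hsub (Finset.mem_insert_of_mem hk)
          have hxX := hsub (Finset.mem_insert_self x X')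
          have hx' := Finset.mem_Ico.1 (X1 hxX)
          have T2 := t1.trans t2
          have hN : S2.N x = A := by rw [t2.2.1 x hx'.2]; exact X2 x hxX
          set s1 : Sig := Function.update s0 x σ with hs1
          have hs1v : s1 ∈ view (act Q τ S2.N) B s0 := mem_view_of_eq_below S2 hB fun i hi => by
            rw [hs1, Function.update_of_ne (by omega)]
          have ha2 : Amb Q (act Q τ S2.N) A s0 := T2.amb hAr ha
          have ha2' : Amb Q (act Q τ S2.N) A s1 := ha2.of_mem Q (view_anti hAB s0 hs1v)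
          have hs1x : s1 x = σ := by rw [hs1, Function.update_self]
          have hL : ∀ t, lik Q (act Q τ S2.N) (B ∪ {x}) s1 t
              = lik Q (act Q τ S.N) B s0 t * Q.w t σ := by
            intro t
            rw [lik_union S2 hB hAB ?_ ha2' t, lik_eq_of_mem Q hs1v t, T2.lik_eq hB,
              Finset.prod_singleton, hs1x]
            intro k hk
            rw [Finset.mem_singleton.1 hk]
            exact ⟨hx'.1, hN⟩
          obtain ⟨S3, t3, cov3⟩ := ih S2 A (B ∪ {x}) s1 (hAB.trans Finset.subset_union_left)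
            (Finset.union_subset (hB.trans T2.range) (by
              intro k hk
              rw [Finset.mem_singleton.1 hk, Finset.mem_range]
              exact lt_of_lt_of_le hx'.2 t2.1))
            (T2.acc hAr hA) ((T2.acc hB hBa).mono Q Finset.subset_union_left le_rfl) ha2'
            (by
              rw [hL, hL]
              calc _ = (lik Q (act Q τ S.N) B s0 σ * Q.w σ σ) * Q.w σ (!σ) := by ring
                _ ≤ (lik Q (act Q τ S.N) B s0 (!σ) * Q.w (!σ) σ) * Q.w σ (!σ) :=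
                  mul_le_mul_of_nonneg_right hlow p2.le
                _ < (lik Q (act Q τ S.N) B s0 (!σ) * Q.w (!σ) σ) * Q.w (!σ) (!σ) :=
                  mul_lt_mul_of_pos_left eβ (by positivity)
                _ = _ := by ring)
            (by
              rw [hL, hL]
              calc _ = lik Q (act Q τ S.N) B s0 (!σ) * Q.w (!σ) σ ^ (m + 1 + 1) := by ring
                _ < _ := h2
                _ = _ := by ring)
          refine ⟨S3, t2.trans t3, ?_⟩
          rw [Finset.set_biUnion_insert]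
          refine Cov.union (cov3.mono ?_) (cov2.step t3)
          rintro s ⟨hs, hsx⟩
          have hs' : s ∈ view (act Q τ S2.N) B s0 := by rw [T2.view_eq hB]; exact hs
          intro k hk
          rcases Finset.mem_union.1 hk with hk | hk
          · rw [hs' k hk, hs1v k hk]
          · rw [Finset.mem_singleton.1 hk,
              act_fresh S2 hN (ha2.of_mem Q (view_anti hAB s0 hs')),
              act_fresh S2 hN ha2', hs1x]
            exact hsx
      obtain ⟨S', t', cov'⟩ := key X (Finset.Subset.refl _)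
      refine ⟨S', t1.trans t', fun s hs => ?_⟩
      by_cases hz : ∀ k ∈ X, s k = !σ
      · obtain ⟨A', g1, g2, g3⟩ := X3 s hs hz
        exact ⟨A', g1.trans t'.range, t'.acc g1 g2, t'.amb g1 g3⟩
      · push Not at hz
        obtain ⟨x, hx, hne⟩ := hz
        have hsx : s x = σ := by
          by_contra hcon
          exact hne (bool_ne hcon)
        exact cov' s (Set.mem_iUnion₂.2 ⟨x, hx, hs, hsx⟩)

lemma complete {ε ε' : ℝ} (hε : ε' ≤ ε) (S : Net) (A B : Finset ℕ) (s0 : Sig) (hAB : A ⊆ B)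
    (hB : B ⊆ Finset.range S.n) (hA : Acc Q (act Q τ S.N) A ε)
    (hBa : Acc Q (act Q τ S.N) B ε') (ha : Amb Q (act Q τ S.N) A s0) :
    ∃ S' : Net, Step Q τ ε S S' ∧ Cov Q τ ε' S' (view (act Q τ S.N) B s0) := by
  by_cases hamb : Amb Q (act Q τ S.N) B s0
  · exact ⟨S, Step.refl _ _, fun s hs => ⟨B, hB, hBa, hamb.of_mem Q hs⟩⟩
  · unfold Amb at hamb
    push Not at hamb
    obtain ⟨σ, hσ⟩ := hamb
    have eα := Q.lt σ
    have eβ := Q.ltn σ
    have p1 := Q.pos (!σ) σ
    have p2 := Q.pos σ (!σ)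
    have p3 := Q.pos σ σ
    have p4 := Q.pos (!σ) (!σ)
    have hVo : 0 < lik Q (act Q τ S.N) B s0 σ := lik_pos Q τ S B s0 σ
    have hVz : 0 < lik Q (act Q τ S.N) B s0 (!σ) := lik_pos Q τ S B s0 (!σ)
    obtain ⟨m, hm⟩ := exists_pow_gt (a := lik Q (act Q τ S.N) B s0 σ * Q.w σ σ)
      (b := lik Q (act Q τ S.N) B s0 (!σ) * Q.w (!σ) σ) (x := Q.w σ σ) (y := Q.w (!σ) σ)
      (by positivity) (by positivity) p1 eα
    refine complete_aux σ hε m S A B s0 hAB hB hA hBa ha ?_ ?_
    · have h1 : lik Q (act Q τ S.N) B s0 σ < lik Q (act Q τ S.N) B s0 (!σ) := by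
        by_contra hcon
        have h2 := not_lt.1 hcon
        have h3 : lik Q (act Q τ S.N) B s0 (!σ) * Q.w (!σ) σ
            < lik Q (act Q τ S.N) B s0 σ * Q.w σ σ := mul_lt_mul' h2 eα p1.le hVo
        linarith
      exact mul_lt_mul'' h1 eβ hVo.le p2.le
    · calc _ = lik Q (act Q τ S.N) B s0 (!σ) * Q.w (!σ) σ * Q.w (!σ) σ ^ m := by ring
        _ < _ := hm
        _ = _ := by ring

end Pool.SL
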