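import Pool.Agent.V11330.SL.Amp

open MeasureTheory ProbabilityTheory

namespace Pool.SL

variable {Q : Par} {τ : Tie}

lemma exists_pow_gt {a b x y : ℝ} (ha : 0 < a) (_hb : 0 < b) (hy : 0 < y) (hxy : y < x) :
    ∃ m : ℕ, b * y ^ m < a * x ^ m := by
  have hx : 0 < x := hy.trans hxy
  have h1 : 0 ≤ y / x := (div_pos hy hx).le
  have h2 : y / x < 1 := (div_lt_one hx).2 hxy
  have h3 := ((tendsto_pow_atTop_nhds_zero_of_lt_one h1 h2).const_mul b)
  rw [mul_zero] at h3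
  obtain ⟨m, hm⟩ := (h3.eventually (gt_mem_nhds ha)).exists
  refine ⟨m, ?_⟩
  rw [div_pow, ← mul_div_assoc, div_lt_iff₀ (pow_pos hx m)] at hm
  exact hm

lemma exists_first {a b x y : ℝ} (ha : 0 < a) (hb : 0 < b) (hy : 0 < y) (hxy : y < x)
    (hab : a ≤ b) : ∃ m : ℕ, a * x ^ m ≤ b * y ^ m ∧ b * y ^ (m + 1) < a * x ^ (m + 1) := by
  classical
  have h := exists_pow_gt ha hb hy hxy
  have h1 := Nat.find_spec h
  have h0 : Nat.find h ≠ 0 := by
    intro h0
    rw [h0] at h1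
    simp at h1
    linarith
  obtain ⟨m, hm⟩ := Nat.exists_eq_succ_of_ne_zero h0
  refine ⟨m, ?_, ?_⟩
  · exact not_lt.1 (Nat.find_min h (by rw [hm]; exact Nat.lt_succ_self m))
  · rw [hm] at h1; exact h1

lemma exists_delta {x y K : ℝ} (h : x < y) (hK : 0 ≤ K) : ∃ δ : ℝ, 0 < δ ∧ x + K * δ < y := by
  have h1 : 0 < y - x := sub_pos.2 h
  refine ⟨(y - x) / (K + 1) / 2, by positivity, ?_⟩
  have h2 : K * ((y - x) / (K + 1) / 2) < y - x := by
    have h3 : K * ((y - x) / (K + 1) / 2) = (y - x) * (K / (K + 1)) / 2 := by ring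
    have h4 : K / (K + 1) ≤ 1 := by
      rw [div_le_one (by linarith)]; linarith
    rw [h3]
    nlinarith
  linarith

lemma bool_ne {b σ : Bool} (h : b ≠ σ) : b = !σ := by
  cases b <;> cases σ <;> simp_all

lemma bool_ne' (σ : Bool) : σ ≠ !σ := by cases σ <;> simp

lemma P_world (S : Net) {B F : Finset ℕ} {n : ℕ} (hB : B ⊆ Finset.range n)
    (hF : ∀ k ∈ F, n ≤ k) (x s0 : Sig) (t : Bool) :
    (P Q t).real (view (act Q τ S.N) B s0 ∩ {s | ∀ k ∈ F, s k = x k})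
      = lik Q (act Q τ S.N) B s0 t * ∏ k ∈ F, Q.w t (x k) := by
  unfold lik
  rw [Dep.indep Q (dep_view Q τ S hB s0) (dep_cyl F x) ?_ t, P_cyl]
  rw [Finset.disjoint_left]
  intro k hk hk'
  have := hF k hk'
  have := Finset.mem_range.1 hk
  omega

lemma P_world_bad (S : Net) {B I : Finset ℕ} {n : ℕ} (hB : B ⊆ Finset.range n)
    (hI : ∀ k ∈ I, n ≤ k) {Bad : Set Sig} (hd : Dep I Bad) {δ : ℝ} (s0 : Sig) (t : Bool)
    (hδ : (P Q t).real Bad ≤ δ) :
    (P Q t).real (view (act Q τ S.N) B s0 ∩ Bad) ≤ lik Q (act Q τ S.N) B s0 t * δ := by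
  rw [Dep.indep Q (dep_view Q τ S hB s0) hd ?_ t]
  · exact mul_le_mul_of_nonneg_left hδ measureReal_nonneg
  rw [Finset.disjoint_left]
  intro k hk hk'
  have := hI k hk'
  have := Finset.mem_range.1 hk
  omega

lemma BlockProp.monoX {σ : Bool} {S S' : Net} {A V : Finset ℕ} {d : ℕ}
    {D X X' : Finset ℕ} {Bad : Set Sig} (h : BlockProp Q τ σ S S' A V d D X Bad)
    (hX : X ⊆ X') : BlockProp Q τ σ S S' A V d D X' Bad := by
  intro s hs
  obtain ⟨h1, h2, h3⟩ := h s hs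
  exact ⟨h1, h2, fun h5 h6 => h3 h5 fun k hk => h6 k (hX hk)⟩

lemma BlockProp.lift {σ : Bool} {ε ε' : ℝ} {S S' T : Net} {A V : Finset ℕ} {d : ℕ}
    {D X : Finset ℕ} {Bad : Set Sig} (h : BlockProp Q τ σ S S' A V d D X Bad)
    (hT : Step Q τ ε S T) (hT' : Step Q τ ε' S' T) (hA : A ⊆ Finset.range S.n)
    (hV : V ⊆ Finset.range S.n) (hD : D ⊆ Finset.range S'.n) :
    BlockProp Q τ σ T T A V d D X Bad := by
  intro s hs
  have hs' : Amb Q (act Q τ S.N) A s :=
    hs.congr Q fun j hj => (hT.act_mem hA j hj).symm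
  have := (h.step hT' hD) s hs'
  rwa [← hT.lik_eq hV, ← hT.lik_eq hV] at this

lemma gadget_core (σ : Bool) (T : Net) (A B : Finset ℕ) (n : ℕ) (hAB : A ⊆ B)
    (hB : B ⊆ Finset.range n) (s0 : Sig) (ha : Amb Q (act Q τ T.N) A s0)
    (bs cs I X : Finset ℕ) (hbs : ∀ k ∈ bs, n ≤ k ∧ T.N k = A)
    (hcs : ∀ k ∈ cs, n ≤ k ∧ T.N k = A) (hdis : Disjoint bs cs) (hI : ∀ k ∈ I, n ≤ k)
    (hXb : bs ⊆ X) (hXc : cs ⊆ X) (c d : ℕ) (δ1 δ2 : ℝ)
    (D1 : ℕ × ℕ → Finset ℕ) (D2 D3 : ℕ → Finset ℕ)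
    (Bad1 : ℕ × ℕ → Set Sig) (Bad2 Bad3 : ℕ → Set Sig)
    (H1 : ∀ j ∈ bs ×ˢ cs, BlockProp Q τ σ T T A (B ∪ {j.1, j.2}) c (D1 j) X (Bad1 j))
    (H2 : ∀ i ∈ bs, BlockProp Q τ σ T T A (B ∪ {i}) (c + 1) (D2 i) X (Bad2 i))
    (H3 : ∀ l ∈ cs, BlockProp Q τ σ T T A ((B ∪ {l}) ∪ bs.biUnion fun i => D1 (i, l)) d
      (D3 l) X (Bad3 l))
    (G1 : ∀ j ∈ bs ×ˢ cs, Dep I (Bad1 j)) (G1' : ∀ j ∈ bs ×ˢ cs, ∀ t, (P Q t).real (Bad1 j) ≤ δ1)
    (G2 : ∀ i ∈ bs, Dep I (Bad2 i)) (G2' : ∀ i ∈ bs, ∀ t, (P Q t).real (Bad2 i) ≤ δ2)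
    (G3 : ∀ l ∈ cs, Dep I (Bad3 l)) (G3' : ∀ l ∈ cs, ∀ t, (P Q t).real (Bad3 l) ≤ δ2)
    (i0 : lik Q (act Q τ T.N) B s0 σ * Q.w σ σ ≤ lik Q (act Q τ T.N) B s0 (!σ) * Q.w (!σ) σ)
    (i1 : lik Q (act Q τ T.N) B s0 σ * Q.w σ σ ^ 2 * Q.w σ σ ^ c
      ≤ lik Q (act Q τ T.N) B s0 (!σ) * Q.w (!σ) σ ^ 2 * Q.w (!σ) σ ^ c)
    (i2 : lik Q (act Q τ T.N) B s0 (!σ) * Q.w (!σ) σ ^ 2 * Q.w (!σ) σ ^ (c + 1)
      < lik Q (act Q τ T.N) B s0 σ * Q.w σ σ ^ 2 * Q.w σ σ ^ (c + 1))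
    (i3 : lik Q (act Q τ T.N) B s0 (!σ) * Q.w (!σ) (!σ) * Q.w (!σ) σ ^ (d + 1)
      < lik Q (act Q τ T.N) B s0 σ * Q.w σ (!σ) * Q.w σ σ ^ (d + 1))
    (i4 : lik Q (act Q τ T.N) B s0 σ * (Q.w σ σ * Q.w σ (!σ) ^ bs.card + bs.card * δ1)
        * Q.w σ σ ^ (d + 1)
      < lik Q (act Q τ T.N) B s0 (!σ) * (Q.w (!σ) σ * Q.w (!σ) (!σ) ^ bs.card)
        * Q.w (!σ) σ ^ (d + 1))
    (i5 : lik Q (act Q τ T.N) B s0 (!σ) * (Q.w (!σ) (!σ) ^ bs.card * Q.w (!σ) σ ^ cs.card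
        + (bs.card + cs.card) * δ2) * Q.w (!σ) σ
      < lik Q (act Q τ T.N) B s0 σ * (Q.w σ (!σ) ^ bs.card * Q.w σ σ ^ cs.card) * Q.w σ σ)
    (i6 : lik Q (act Q τ T.N) B s0 σ * (Q.w σ (!σ) ^ bs.card * Q.w σ σ ^ cs.card
        + (bs.card + cs.card) * δ2) * Q.w σ (!σ)
      < lik Q (act Q τ T.N) B s0 (!σ) * (Q.w (!σ) (!σ) ^ bs.card * Q.w (!σ) σ ^ cs.card)
        * Q.w (!σ) (!σ)) :
    ∀ s ∈ view (act Q τ T.N) B s0, (∀ k ∈ X, s k = !σ) →
      Amb Q (act Q τ T.N) ((B ∪ bs.biUnion D2) ∪ cs.biUnion D3) s := by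
  set a := act Q τ T.N with ha_def
  have eα := Q.lt σ
  have eβ := Q.ltn σ
  have p1 := Q.pos (!σ) σ
  have p2 := Q.pos σ (!σ)
  have p3 := Q.pos σ σ
  have p4 := Q.pos (!σ) (!σ)
  have hVo : 0 < lik Q a B s0 σ := lik_pos Q τ T B s0 σ
  have hVz : 0 < lik Q a B s0 (!σ) := lik_pos Q τ T B s0 (!σ)
  set Vo := lik Q a B s0 σ with hVo_def
  set Vz := lik Q a B s0 (!σ) with hVz_def
  -- basic facts in the world
  have hamb : ∀ s ∈ view a B s0, Amb Q a A s := fun s hs => ha.of_mem Q (view_anti hAB s0 hs)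
  have hlik : ∀ s ∈ view a B s0, ∀ t, lik Q a B s t = lik Q a B s0 t :=
    fun s hs t => lik_eq_of_mem Q hs t
  have hfb : ∀ s ∈ view a B s0, ∀ k ∈ bs, a k s = s k := fun s hs k hk =>
    act_fresh T (hbs k hk).2 (hamb s hs)
  have hfc : ∀ s ∈ view a B s0, ∀ k ∈ cs, a k s = s k := fun s hs k hk =>
    act_fresh T (hcs k hk).2 (hamb s hs)
  -- likelihoods of the first-layer views
  have hL1 : ∀ s ∈ view a B s0, ∀ i ∈ bs, ∀ l ∈ cs, ∀ t,
      lik Q a (B ∪ {i, l}) s t = lik Q a B s0 t * (Q.w t (s i) * Q.w t (s l)) := by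
    intro s hs i hi l hl t
    have hil : i ≠ l := fun h => Finset.disjoint_left.1 hdis hi (h ▸ hl)
    rw [lik_union T hB hAB ?_ (hamb s hs) t, Finset.prod_pair hil, hlik s hs]
    intro k hk
    rcases Finset.mem_insert.1 hk with hk | hk
    · rw [hk]; exact hbs i hi
    · rw [Finset.mem_singleton.1 hk]; exact hcs l hl
  have hL2 : ∀ s ∈ view a B s0, ∀ i ∈ bs, ∀ t,
      lik Q a (B ∪ {i}) s t = lik Q a B s0 t * Q.w t (s i) := by
    intro s hs i hi t
    rw [lik_union T hB hAB ?_ (hamb s hs) t, Finset.prod_singleton, hlik s hs]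
    intro k hk
    rw [Finset.mem_singleton.1 hk]; exact hbs i hi
  -- consequences of `i1`
  have j1 : Vo * Q.w σ σ ^ (c + 1) < Vz * Q.w (!σ) σ ^ (c + 1) := by
    by_contra hcon
    have h1 := not_lt.1 hcon
    have h2 : 0 < Vz * Q.w (!σ) σ ^ (c + 1) := by positivity
    have h3 : Vz * Q.w (!σ) σ ^ (c + 1) * Q.w (!σ) σ < Vo * Q.w σ σ ^ (c + 1) * Q.w σ σ :=
      lt_of_le_of_lt (mul_le_mul_of_nonneg_right h1 p1.le)
        (mul_lt_mul_of_pos_left eα (h2.trans_le h1))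
    have h4 : Vo * Q.w σ σ ^ (c + 1) * Q.w σ σ = Vo * Q.w σ σ ^ 2 * Q.w σ σ ^ c := by ring
    have h5 : Vz * Q.w (!σ) σ ^ (c + 1) * Q.w (!σ) σ = Vz * Q.w (!σ) σ ^ 2 * Q.w (!σ) σ ^ c := by
      ring
    linarith
  have hpc : 0 < Vz * Q.w (!σ) σ ^ 2 * Q.w (!σ) σ ^ c := by positivity
  have key : Vo * Q.w σ σ ^ 2 * Q.w σ σ ^ c * Q.w σ (!σ)
      < Vz * Q.w (!σ) σ ^ 2 * Q.w (!σ) σ ^ c * Q.w (!σ) (!σ) :=
    lt_of_le_of_lt (mul_le_mul_of_nonneg_right i1 p2.le) (mul_lt_mul_of_pos_left eβ hpc)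
  -- the experts
  have e1 : ∀ s ∈ view a B s0, ∀ i ∈ bs, ∀ l ∈ cs, ¬ (s i = σ ∧ s l = σ) →
      ∀ k ∈ D1 (i, l), a k s = !σ := by
    intro s hs i hi l hl hne
    refine (H1 (i, l) (Finset.mem_product.2 ⟨hi, hl⟩) s (hamb s hs)).1 ?_
    show lik Q a (B ∪ {i, l}) s σ * _ < lik Q a (B ∪ {i, l}) s (!σ) * _
    rw [hL1 s hs i hi l hl, hL1 s hs i hi l hl]
    by_cases h1 : s i = σ
    · have h2 : s l = !σ := bool_ne fun h => hne ⟨h1, h⟩
      rw [h1, h2]
      calc _ = Vo * Q.w σ σ ^ 2 * Q.w σ σ ^ c * Q.w σ (!σ) := by ring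
        _ < _ := key
        _ = _ := by ring
    · have h1' : s i = !σ := bool_ne h1
      by_cases h2 : s l = σ
      · rw [h1', h2]
        calc _ = Vo * Q.w σ σ ^ 2 * Q.w σ σ ^ c * Q.w σ (!σ) := by ring
          _ < _ := key
          _ = _ := by ring
      · have h2' : s l = !σ := bool_ne h2
        rw [h1', h2']
        calc _ = (Vo * Q.w σ σ ^ (c + 1)) * (Q.w σ (!σ) * Q.w σ (!σ)) := by ring
          _ < (Vz * Q.w (!σ) σ ^ (c + 1)) * (Q.w (!σ) (!σ) * Q.w (!σ) (!σ)) :=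
            mul_lt_mul'' j1 (mul_lt_mul'' eβ eβ p2.le p2.le) (by positivity) (by positivity)
          _ = _ := by ring
  have e2 : ∀ s ∈ view a B s0, ∀ i ∈ bs, ∀ l ∈ cs, s i = σ → s l = σ →
      (∀ k ∈ D1 (i, l), a k s = !σ) → s ∈ Bad1 (i, l) := by
    intro s hs i hi l hl h1 h2 h3
    refine (H1 (i, l) (Finset.mem_product.2 ⟨hi, hl⟩) s (hamb s hs)).2.1 ?_ h3
    show lik Q a (B ∪ {i, l}) s (!σ) * _ < lik Q a (B ∪ {i, l}) s σ * _
    rw [hL1 s hs i hi l hl, hL1 s hs i hi l hl, h1, h2]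
    calc _ = Vz * Q.w (!σ) σ ^ 2 * Q.w (!σ) σ ^ (c + 1) := by ring
      _ < _ := i2
      _ = _ := by ring
  -- the tests of the `b`s
  have b1 : ∀ s ∈ view a B s0, ∀ i ∈ bs, s i = (!σ) → ∀ k ∈ D2 i, a k s = !σ := by
    intro s hs i hi h1
    refine (H2 i hi s (hamb s hs)).1 ?_
    rw [hL2 s hs i hi, hL2 s hs i hi, h1]
    calc _ = Vo * Q.w σ σ ^ 2 * Q.w σ σ ^ c * Q.w σ (!σ) := by ring
      _ < _ := key
      _ = _ := by ring
  have b2 : ∀ s ∈ view a B s0, ∀ i ∈ bs, s i = σ → (∀ k ∈ D2 i, a k s = !σ) → s ∈ Bad2 i := by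
    intro s hs i hi h1 h3
    refine (H2 i hi s (hamb s hs)).2.1 ?_ h3
    rw [hL2 s hs i hi, hL2 s hs i hi, h1]
    calc _ = Vz * Q.w (!σ) σ ^ 2 * Q.w (!σ) σ ^ (c + 1) := by ring
      _ < _ := i2
      _ = _ := by ring
  -- likelihood of the view of the third layer
  have hLz : ∀ s ∈ view a B s0, ∀ l ∈ cs, s l = (!σ) → ∀ t,
      lik Q a ((B ∪ {l}) ∪ bs.biUnion fun i => D1 (i, l)) s t
        = lik Q a B s0 t * Q.w t (!σ) := by
    intro s hs l hl h1 t
    have hv : view a ((B ∪ {l}) ∪ bs.biUnion fun i => D1 (i, l)) s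
        = view a B s0 ∩ {s' | ∀ k ∈ ({l} : Finset ℕ), s' k = !σ} := by
      ext s'
      constructor
      · intro h
        have h2 : s' ∈ view a B s0 := by
          rw [← view_eq_of_mem hs]
          exact view_anti (Finset.subset_union_left.trans Finset.subset_union_left) s h
        refine ⟨h2, fun k hk => ?_⟩
        rw [Finset.mem_singleton.1 hk]
        have h3 := h l (by simp)
        rw [hfc s' h2 l hl, hfc s hs l hl, h1] at h3
        exact h3
      · rintro ⟨h2, h3⟩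
        have h3' : s' l = !σ := h3 l (Finset.mem_singleton_self l)
        intro k hk
        rw [Finset.mem_union, Finset.mem_union, Finset.mem_singleton, Finset.mem_biUnion] at hk
        rcases hk with (hk | hk) | ⟨i, hi, hk⟩
        · rw [h2 k hk, hs k hk]
        · rw [hk, hfc s' h2 l hl, hfc s hs l hl, h1, h3']
        · rw [e1 s' h2 i hi l hl (fun h => bool_ne' σ (h.2.symm.trans h3')) k hk,
            e1 s hs i hi l hl (fun h => bool_ne' σ (h.2.symm.trans h1)) k hk]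
    unfold lik
    rw [hv, P_world T hB ?_ (fun _ => !σ) s0 t, Finset.prod_singleton]
    · rfl
    · intro k hk
      rw [Finset.mem_singleton.1 hk]; exact (hcs l hl).1
  have hLo : ∀ s ∈ view a B s0, ∀ l ∈ cs, s l = σ →
      (∀ k ∈ bs.biUnion fun i => D1 (i, l), a k s = !σ) → ∀ t,
      lik Q a B s0 t * (Q.w t σ * Q.w t (!σ) ^ bs.card)
        ≤ lik Q a ((B ∪ {l}) ∪ bs.biUnion fun i => D1 (i, l)) s t ∧
      lik Q a ((B ∪ {l}) ∪ bs.biUnion fun i => D1 (i, l)) s t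
        ≤ lik Q a B s0 t * (Q.w t σ * Q.w t (!σ) ^ bs.card + bs.card * δ1) := by
    intro s hs l hl h1 hz t
    have hlb : l ∉ bs := fun h => Finset.disjoint_left.1 hdis h hl
    have hW : (P Q t).real (view a B s0 ∩ {s' | ∀ k ∈ insert l bs, s' k = if k = l then σ else !σ})
        = lik Q a B s0 t * (Q.w t σ * Q.w t (!σ) ^ bs.card) := by
      rw [P_world T hB ?_ (fun k => if k = l then σ else !σ) s0 t, Finset.prod_insert hlb,
        if_pos rfl]
      · congr 2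
        rw [← Finset.prod_const]
        refine Finset.prod_congr rfl fun k hk => ?_
        rw [if_neg (fun h : k = l => hlb (h ▸ hk))]
      · intro k hk
        rcases Finset.mem_insert.1 hk with hk | hk
        · rw [hk]; exact (hcs l hl).1
        · exact (hbs k hk).1
    constructor
    · rw [← hW]
      refine measureReal_mono ?_
      rintro s' ⟨h2, h3⟩ k hk
      have h3l : s' l = σ := by
        have := h3 l (Finset.mem_insert_self _ _)
        rwa [if_pos rfl] at this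
      rw [Finset.mem_union, Finset.mem_union, Finset.mem_singleton] at hk
      rcases hk with (hk | hk) | hk
      · rw [h2 k hk, hs k hk]
      · rw [hk, hfc s' h2 l hl, hfc s hs l hl, h1, h3l]
      · rw [hz k hk]
        rw [Finset.mem_biUnion] at hk
        obtain ⟨i, hi, hk⟩ := hk
        have h3i : s' i = !σ := by
          have := h3 i (Finset.mem_insert_of_mem hi)
          rwa [if_neg (fun h : i = l => hlb (h ▸ hi))] at this
        exact e1 s' h2 i hi l hl (fun h => bool_ne' σ (h.1.symm.trans h3i)) k hk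
    · have hsub : view a ((B ∪ {l}) ∪ bs.biUnion fun i => D1 (i, l)) s
          ⊆ (view a B s0 ∩ {s' | ∀ k ∈ insert l bs, s' k = if k = l then σ else !σ})
            ∪ ⋃ i ∈ bs, (view a B s0 ∩ Bad1 (i, l)) := by
        intro s' h
        have h2 : s' ∈ view a B s0 := by
          rw [← view_eq_of_mem hs]
          exact view_anti (Finset.subset_union_left.trans Finset.subset_union_left) s h
        have h3l : s' l = σ := by
          have h3 := h l (by simp)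
          rw [hfc s' h2 l hl, hfc s hs l hl, h1] at h3
          exact h3
        by_cases hall : ∀ i ∈ bs, s' i = !σ
        · left
          refine ⟨h2, fun k hk => ?_⟩
          by_cases hkl : k = l
          · rw [if_pos hkl, hkl, h3l]
          · rw [if_neg hkl]
            exact hall k (Finset.mem_of_mem_insert_of_ne hk hkl)
        · right
          push Not at hall
          obtain ⟨i, hi, hne⟩ := hall
          have h3i : s' i = σ := by
            by_contra hcon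
            exact hne (bool_ne hcon)
          rw [Set.mem_iUnion₂]
          refine ⟨i, hi, h2, e2 s' h2 i hi l hl h3i h3l fun k hk => ?_⟩
          have hk' : k ∈ bs.biUnion fun i => D1 (i, l) := Finset.mem_biUnion.2 ⟨i, hi, hk⟩
          rw [h k (Finset.mem_union_right _ hk'), hz k hk']
      refine (measureReal_mono hsub).trans ((measureReal_union_le _ _).trans ?_)
      rw [hW, mul_add]
      refine add_le_add le_rfl ((measureReal_biUnion_finset_le _ _).trans ?_)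
      refine (Finset.sum_le_card_nsmul bs _ (lik Q a B s0 t * δ1) fun i hi => ?_).trans ?_
      · have hm : (i, l) ∈ bs ×ˢ cs := Finset.mem_product.2 ⟨hi, hl⟩
        exact P_world_bad T hB hI (G1 (i, l) hm) s0 t (G1' (i, l) hm t)
      · rw [nsmul_eq_mul]
        apply le_of_eq; ring
  -- the tests of the `c`s
  have c1 : ∀ s ∈ view a B s0, ∀ l ∈ cs, s l = σ →
      (∀ k ∈ bs.biUnion fun i => D1 (i, l), a k s = !σ) → ∀ k ∈ D3 l, a k s = !σ := by
    intro s hs l hl h1 hz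
    refine (H3 l hl s (hamb s hs)).1 ?_
    calc _ ≤ Vo * (Q.w σ σ * Q.w σ (!σ) ^ bs.card + bs.card * δ1) * Q.w σ σ ^ (d + 1) :=
          mul_le_mul_of_nonneg_right (hLo s hs l hl h1 hz σ).2 (by positivity)
      _ < Vz * (Q.w (!σ) σ * Q.w (!σ) (!σ) ^ bs.card) * Q.w (!σ) σ ^ (d + 1) := i4
      _ ≤ _ := mul_le_mul_of_nonneg_right (hLo s hs l hl h1 hz (!σ)).1 (by positivity)
  have c2 : ∀ s ∈ view a B s0, ∀ l ∈ cs, s l = (!σ) → (∀ k ∈ D3 l, a k s = !σ) →
      s ∈ Bad3 l := by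
    intro s hs l hl h1 h3
    refine (H3 l hl s (hamb s hs)).2.1 ?_ h3
    rw [hLz s hs l hl h1, hLz s hs l hl h1]
    exact i3
  have c3 : ∀ s ∈ view a B s0, ∀ l ∈ cs, s l = (!σ) → (∀ k ∈ X, s k = !σ) →
      ∀ k ∈ D3 l, a k s = !σ := by
    intro s hs l hl h1 h3
    refine (H3 l hl s (hamb s hs)).2.2 ?_ h3
    rw [hLz s hs l hl h1, hLz s hs l hl h1]
    have k1 : Q.w σ (!σ) ^ (d + 1) < Q.w (!σ) (!σ) ^ (d + 1) :=
      pow_lt_pow_left₀ eβ p2.le (by omega)
    calc _ = (Vo * Q.w σ σ) * Q.w σ (!σ) ^ (d + 1) := by ring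
      _ ≤ (Vz * Q.w (!σ) σ) * Q.w σ (!σ) ^ (d + 1) :=
        mul_le_mul_of_nonneg_right i0 (by positivity)
      _ < (Vz * Q.w (!σ) σ) * Q.w (!σ) (!σ) ^ (d + 1) :=
        mul_lt_mul_of_pos_left k1 (by positivity)
      _ = _ := by ring
  -- the final view
  intro s hs hX
  have hsb : ∀ i ∈ bs, s i = !σ := fun i hi => hX i (hXb hi)
  have hsc : ∀ l ∈ cs, s l = !σ := fun l hl => hX l (hXc hl)
  have z2 : ∀ k ∈ bs.biUnion D2, a k s = !σ := by
    intro k hk
    obtain ⟨i, hi, hk⟩ := Finset.mem_biUnion.1 hk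
    exact b1 s hs i hi (hsb i hi) k hk
  have z3 : ∀ k ∈ cs.biUnion D3, a k s = !σ := by
    intro k hk
    obtain ⟨l, hl, hk⟩ := Finset.mem_biUnion.1 hk
    exact c3 s hs l hl (hsc l hl) hX k hk
  have hbc : ∀ k ∈ bs ∪ cs, n ≤ k := by
    intro k hk
    rcases Finset.mem_union.1 hk with hk | hk
    · exact (hbs k hk).1
    · exact (hcs k hk).1
  have hW : ∀ t, (P Q t).real
      (view a B s0 ∩ {s' | ∀ k ∈ bs ∪ cs, s' k = if k ∈ cs then σ else !σ})
      = lik Q a B s0 t * (Q.w t (!σ) ^ bs.card * Q.w t σ ^ cs.card) := by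
    intro t
    rw [P_world T hB hbc (fun k => if k ∈ cs then σ else !σ) s0 t, Finset.prod_union hdis]
    congr 2
    · rw [← Finset.prod_const]
      refine Finset.prod_congr rfl fun k hk => ?_
      rw [if_neg (Finset.disjoint_left.1 hdis hk)]
    · rw [← Finset.prod_const]
      refine Finset.prod_congr rfl fun k hk => ?_
      rw [if_pos hk]
  have hU : ∀ t, lik Q a B s0 t * (Q.w t (!σ) ^ bs.card * Q.w t σ ^ cs.card)
        ≤ lik Q a ((B ∪ bs.biUnion D2) ∪ cs.biUnion D3) s t ∧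
      lik Q a ((B ∪ bs.biUnion D2) ∪ cs.biUnion D3) s t
        ≤ lik Q a B s0 t * (Q.w t (!σ) ^ bs.card * Q.w t σ ^ cs.card
          + (bs.card + cs.card) * δ2) := by
    intro t
    constructor
    · rw [← hW]
      refine measureReal_mono ?_
      rintro s' ⟨h2, h3⟩ k hk
      have h3b : ∀ i ∈ bs, s' i = !σ := fun i hi => by
        have := h3 i (Finset.mem_union_left _ hi)
        rwa [if_neg (Finset.disjoint_left.1 hdis hi)] at this
      have h3c : ∀ l ∈ cs, s' l = σ := fun l hl => by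
        have := h3 l (Finset.mem_union_right _ hl)
        rwa [if_pos hl] at this
      rw [Finset.mem_union, Finset.mem_union] at hk
      rcases hk with (hk | hk) | hk
      · rw [h2 k hk, hs k hk]
      · rw [z2 k hk]
        obtain ⟨i, hi, hk⟩ := Finset.mem_biUnion.1 hk
        exact b1 s' h2 i hi (h3b i hi) k hk
      · rw [z3 k hk]
        obtain ⟨l, hl, hk⟩ := Finset.mem_biUnion.1 hk
        refine c1 s' h2 l hl (h3c l hl) (fun k' hk' => ?_) k hk
        obtain ⟨i, hi, hk'⟩ := Finset.mem_biUnion.1 hk'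
        exact e1 s' h2 i hi l hl (fun h => bool_ne' σ (h.1.symm.trans (h3b i hi))) k' hk'
    · have hsub : view a ((B ∪ bs.biUnion D2) ∪ cs.biUnion D3) s
          ⊆ (view a B s0 ∩ {s' | ∀ k ∈ bs ∪ cs, s' k = if k ∈ cs then σ else !σ})
            ∪ ((⋃ i ∈ bs, (view a B s0 ∩ Bad2 i)) ∪ ⋃ l ∈ cs, (view a B s0 ∩ Bad3 l)) := by
        intro s' h
        have h2 : s' ∈ view a B s0 := by
          rw [← view_eq_of_mem hs]
          exact view_anti (Finset.subset_union_left.trans Finset.subset_union_left) s h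
        have hz2 : ∀ i ∈ bs, ∀ k ∈ D2 i, a k s' = !σ := fun i hi k hk => by
          have hk' : k ∈ bs.biUnion D2 := Finset.mem_biUnion.2 ⟨i, hi, hk⟩
          rw [h k (Finset.mem_union_left _ (Finset.mem_union_right _ hk')), z2 k hk']
        have hz3 : ∀ l ∈ cs, ∀ k ∈ D3 l, a k s' = !σ := fun l hl k hk => by
          have hk' : k ∈ cs.biUnion D3 := Finset.mem_biUnion.2 ⟨l, hl, hk⟩
          rw [h k (Finset.mem_union_right _ hk'), z3 k hk']
        by_cases hall : ∀ i ∈ bs, s' i = !σ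
        · by_cases hall' : ∀ l ∈ cs, s' l = σ
          · left
            refine ⟨h2, fun k hk => ?_⟩
            by_cases hkc : k ∈ cs
            · rw [if_pos hkc]; exact hall' k hkc
            · rw [if_neg hkc]
              exact hall k ((Finset.mem_union.1 hk).resolve_right hkc)
          · right; right
            push Not at hall'
            obtain ⟨l, hl, hne⟩ := hall'
            rw [Set.mem_iUnion₂]
            exact ⟨l, hl, h2, c2 s' h2 l hl (bool_ne hne) (hz3 l hl)⟩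
        · right; left
          push Not at hall
          obtain ⟨i, hi, hne⟩ := hall
          have h3i : s' i = σ := by
            by_contra hcon
            exact hne (bool_ne hcon)
          rw [Set.mem_iUnion₂]
          exact ⟨i, hi, h2, b2 s' h2 i hi h3i (hz2 i hi)⟩
      refine (measureReal_mono hsub).trans ((measureReal_union_le _ _).trans ?_)
      rw [hW, mul_add]
      refine add_le_add le_rfl ((measureReal_union_le _ _).trans ?_)
      have q2 : (P Q t).real (⋃ i ∈ bs, (view a B s0 ∩ Bad2 i))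
          ≤ bs.card * (lik Q a B s0 t * δ2) := by
        refine (measureReal_biUnion_finset_le _ _).trans ?_
        rw [← nsmul_eq_mul]
        exact Finset.sum_le_card_nsmul bs _ _ fun i hi =>
          P_world_bad T hB hI (G2 i hi) s0 t (G2' i hi t)
      have q3 : (P Q t).real (⋃ l ∈ cs, (view a B s0 ∩ Bad3 l))
          ≤ cs.card * (lik Q a B s0 t * δ2) := by
        refine (measureReal_biUnion_finset_le _ _).trans ?_
        rw [← nsmul_eq_mul]
        exact Finset.sum_le_card_nsmul cs _ _ fun i hi =>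
          P_world_bad T hB hI (G3 i hi) s0 t (G3' i hi t)
      calc _ ≤ bs.card * (lik Q a B s0 t * δ2) + cs.card * (lik Q a B s0 t * δ2) :=
            add_le_add q2 q3
        _ = _ := by ring
  have f1 : lik Q a ((B ∪ bs.biUnion D2) ∪ cs.biUnion D3) s (!σ) * Q.w (!σ) σ
      < lik Q a ((B ∪ bs.biUnion D2) ∪ cs.biUnion D3) s σ * Q.w σ σ :=
    calc _ ≤ _ := mul_le_mul_of_nonneg_right (hU (!σ)).2 p1.le
      _ < _ := i5
      _ ≤ _ := mul_le_mul_of_nonneg_right (hU σ).1 p3.le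
  have f2 : lik Q a ((B ∪ bs.biUnion D2) ∪ cs.biUnion D3) s σ * Q.w σ (!σ)
      < lik Q a ((B ∪ bs.biUnion D2) ∪ cs.biUnion D3) s (!σ) * Q.w (!σ) (!σ) :=
    calc _ ≤ _ := mul_le_mul_of_nonneg_right (hU σ).2 p2.le
      _ < _ := i6
      _ ≤ _ := mul_le_mul_of_nonneg_right (hU (!σ)).1 p4.le
  intro b
  by_cases hb : b = σ
  · rw [hb]; exact f1
  · rw [bool_ne hb, Bool.not_not]; exact f2

end Pool.SL
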