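import Pool.Agent.V11330.SL.Gadget

open MeasureTheory ProbabilityTheory

namespace Pool.SL

variable {Q : Par} {τ : Tie}

lemma subset_range_of_Ico {D : Finset ℕ} {m n : ℕ} (h : D ⊆ Finset.Ico m n) :
    D ⊆ Finset.range n := fun _ hk => Finset.mem_range.2 (Finset.mem_Ico.1 (h hk)).2

lemma gadget_vlow (σ : Bool) {ε ε' : ℝ} (hε : ε' ≤ ε) (S : Net) (A B : Finset ℕ) (hAB : A ⊆ B)
    (hB : B ⊆ Finset.range S.n) (hA : Acc Q (act Q τ S.N) A ε)
    (hBa : Acc Q (act Q τ S.N) B ε') (s0 : Sig) (ha : Amb Q (act Q τ S.N) A s0)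
    (hlow : lik Q (act Q τ S.N) B s0 σ * Q.w σ σ ^ 2
      ≤ lik Q (act Q τ S.N) B s0 (!σ) * Q.w (!σ) σ ^ 2) :
    ∃ (S' : Net) (X : Finset ℕ), Step Q τ ε S S' ∧ X ⊆ Finset.Ico S.n S'.n ∧
      (∀ k ∈ X, S'.N k = A) ∧
      ∀ s ∈ view (act Q τ S.N) B s0, (∀ k ∈ X, s k = !σ) →
        ∃ A' ⊆ Finset.range S'.n, Acc Q (act Q τ S'.N) A' ε' ∧ Amb Q (act Q τ S'.N) A' s := by
  classical
  have eα := Q.lt σ
  have eβ := Q.ltn σ
  have p1 := Q.pos (!σ) σ
  have p2 := Q.pos σ (!σ)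
  have p3 := Q.pos σ σ
  have p4 := Q.pos (!σ) (!σ)
  have hVo : 0 < lik Q (act Q τ S.N) B s0 σ := lik_pos Q τ S B s0 σ
  have hVz : 0 < lik Q (act Q τ S.N) B s0 (!σ) := lik_pos Q τ S B s0 (!σ)
  set Vo := lik Q (act Q τ S.N) B s0 σ with hVo_def
  set Vz := lik Q (act Q τ S.N) B s0 (!σ) with hVz_def
  have i0 : Vo * Q.w σ σ ≤ Vz * Q.w (!σ) σ := by
    by_contra hcon
    have h1 := not_le.1 hcon
    have h2 : Vz * Q.w (!σ) σ * Q.w (!σ) σ < Vo * Q.w σ σ * Q.w σ σ :=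
      mul_lt_mul'' h1 eα (by positivity) p1.le
    nlinarith
  have i00 : Vo ≤ Vz := by
    by_contra hcon
    have h1 := not_le.1 hcon
    have h2 : Vz * Q.w (!σ) σ < Vo * Q.w σ σ := mul_lt_mul'' h1 eα hVz.le p1.le
    linarith
  -- parameters
  obtain ⟨c, i1, i2⟩ := exists_first (a := Vo * Q.w σ σ ^ 2) (b := Vz * Q.w (!σ) σ ^ 2)
    (x := Q.w σ σ) (y := Q.w (!σ) σ) (by positivity) (by positivity) p1 eα hlow
  obtain ⟨d, j3, i3⟩ := exists_first (a := Vo * Q.w σ (!σ)) (b := Vz * Q.w (!σ) (!σ))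
    (x := Q.w σ σ) (y := Q.w (!σ) σ) (by positivity) (by positivity) p1 eα
    (mul_le_mul i00 eβ.le p2.le hVz.le)
  obtain ⟨h', hh'⟩ := exists_pow_gt (a := Q.w (!σ) σ ^ 2) (b := Q.w σ σ ^ 2)
    (x := Q.w (!σ) (!σ)) (y := Q.w σ (!σ)) (by positivity) (by positivity) p2 eβ
  set h := h' + 1 with hh_def
  have i4' : Vo * (Q.w σ σ * Q.w σ (!σ) ^ h) * Q.w σ σ ^ (d + 1)
      < Vz * (Q.w (!σ) σ * Q.w (!σ) (!σ) ^ h) * Q.w (!σ) σ ^ (d + 1) := by
    calc _ = (Vo * Q.w σ (!σ) * Q.w σ σ ^ d) * (Q.w σ σ ^ 2 * Q.w σ (!σ) ^ h') := by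
          rw [hh_def]; ring
      _ ≤ (Vz * Q.w (!σ) (!σ) * Q.w (!σ) σ ^ d) * (Q.w σ σ ^ 2 * Q.w σ (!σ) ^ h') :=
          mul_le_mul_of_nonneg_right j3 (by positivity)
      _ < (Vz * Q.w (!σ) (!σ) * Q.w (!σ) σ ^ d) * (Q.w (!σ) σ ^ 2 * Q.w (!σ) (!σ) ^ h') :=
          mul_lt_mul_of_pos_left hh' (by positivity)
      _ = _ := by rw [hh_def]; ring
  obtain ⟨δ1, hδ1, i4⟩ := exists_delta (K := Vo * h * Q.w σ σ ^ (d + 1)) i4' (by positivity)
  obtain ⟨v, j5, i5'⟩ := exists_first (a := Vo * Q.w σ (!σ) ^ h) (b := Vz * Q.w (!σ) (!σ) ^ h)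
    (x := Q.w σ σ) (y := Q.w (!σ) σ) (by positivity) (by positivity) p1 eα
    (mul_le_mul i00 (pow_le_pow_left₀ p2.le eβ.le _) (by positivity) hVz.le)
  have i5'' : Vz * (Q.w (!σ) (!σ) ^ h * Q.w (!σ) σ ^ v) * Q.w (!σ) σ
      < Vo * (Q.w σ (!σ) ^ h * Q.w σ σ ^ v) * Q.w σ σ := by
    calc _ = Vz * Q.w (!σ) (!σ) ^ h * Q.w (!σ) σ ^ (v + 1) := by ring
      _ < _ := i5'
      _ = _ := by ring
  have i6'' : Vo * (Q.w σ (!σ) ^ h * Q.w σ σ ^ v) * Q.w σ (!σ)
      < Vz * (Q.w (!σ) (!σ) ^ h * Q.w (!σ) σ ^ v) * Q.w (!σ) (!σ) := by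
    calc _ = (Vo * Q.w σ (!σ) ^ h * Q.w σ σ ^ v) * Q.w σ (!σ) := by ring
      _ ≤ (Vz * Q.w (!σ) (!σ) ^ h * Q.w (!σ) σ ^ v) * Q.w σ (!σ) :=
          mul_le_mul_of_nonneg_right j5 p2.le
      _ < (Vz * Q.w (!σ) (!σ) ^ h * Q.w (!σ) σ ^ v) * Q.w (!σ) (!σ) :=
          mul_lt_mul_of_pos_left eβ (by positivity)
      _ = _ := by ring
  obtain ⟨δ3, hδ3, i5⟩ := exists_delta (K := Vz * (h + v) * Q.w (!σ) σ) i5'' (by positivity)
  obtain ⟨δ4, hδ4, i6⟩ := exists_delta (K := Vo * (h + v) * Q.w σ (!σ)) i6'' (by positivity)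
  set δ2 := min δ3 δ4 with hδ2_def
  have hδ2 : 0 < δ2 := lt_min hδ3 hδ4
  -- the construction
  have hAr : A ⊆ Finset.range S.n := hAB.trans hB
  obtain ⟨S1, t1, n1, N1⟩ := supply S A hAr hA h
  obtain ⟨S2, t2, n2, N2⟩ := supply S1 A (hAr.trans t1.range) (t1.acc hAr hA) v
  set bs := Finset.Ico S.n S1.n with hbs_def
  set cs := Finset.Ico S1.n S2.n with hcs_def
  have T2 := t1.trans t2
  have hB2 : B ⊆ Finset.range S2.n := hB.trans T2.range
  have hbsr : bs ⊆ Finset.range S2.n := fun k hk => by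
    have := (Finset.mem_Ico.1 hk).2
    have := t2.1
    exact Finset.mem_range.2 (by omega)
  have hcsr : cs ⊆ Finset.range S2.n := fun k hk =>
    Finset.mem_range.2 (Finset.mem_Ico.1 hk).2
  have hV1r : ∀ j ∈ bs ×ˢ cs, B ∪ {j.1, j.2} ⊆ Finset.range S2.n := by
    intro j hj
    rw [Finset.mem_product] at hj
    refine Finset.union_subset hB2 fun k hk => ?_
    rcases Finset.mem_insert.1 hk with hk | hk
    · rw [hk]; exact hbsr hj.1
    · rw [Finset.mem_singleton.1 hk]; exact hcsr hj.2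
  obtain ⟨S3, D1, X1, Bad1, t3, a1, a2, a3, a4, a5, a6⟩ :=
    family σ (ε := ε) (δ := δ1) hδ1 S2 A (T2.acc hAr hA) (fun j : ℕ × ℕ => B ∪ {j.1, j.2})
      (fun _ => c) (bs ×ˢ cs) (fun j _ => hAB.trans Finset.subset_union_left) hV1r
      (fun j _ => (T2.acc hB hBa).mono Q Finset.subset_union_left hε)
  have T3 := T2.trans t3
  have hV2r : ∀ i ∈ bs, B ∪ {i} ⊆ Finset.range S3.n := by
    intro i hi
    refine Finset.union_subset (hB.trans T3.range) fun k hk => ?_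
    rw [Finset.mem_singleton.1 hk]; exact t3.range (hbsr hi)
  obtain ⟨S4, D2, X2, Bad2, t4, b1, b2, b3, b4, b5, b6⟩ :=
    family σ (ε := ε) (δ := δ2) hδ2 S3 A (T3.acc hAr hA) (fun i : ℕ => B ∪ {i})
      (fun _ => c + 1) bs (fun j _ => hAB.trans Finset.subset_union_left) hV2r
      (fun j _ => (T3.acc hB hBa).mono Q Finset.subset_union_left hε)
  have T4 := T3.trans t4
  have hV3r : ∀ l ∈ cs, (B ∪ {l}) ∪ (bs.biUnion fun i => D1 (i, l)) ⊆ Finset.range S4.n := by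
    intro l hl
    refine Finset.union_subset (Finset.union_subset (hB.trans T4.range) fun k hk => ?_) ?_
    · rw [Finset.mem_singleton.1 hk]; exact t4.range (t3.range (hcsr hl))
    · intro k hk
      obtain ⟨i, hi, hk⟩ := Finset.mem_biUnion.1 hk
      exact t4.range (subset_range_of_Ico (a1 (i, l) (Finset.mem_product.2 ⟨hi, hl⟩)) hk)
  obtain ⟨T, D3, X3, Bad3, t5, c1, c2, c3, c4, c5, c6⟩ :=
    family σ (ε := ε) (δ := δ2) hδ2 S4 A (T4.acc hAr hA)
      (fun l : ℕ => (B ∪ {l}) ∪ (bs.biUnion fun i => D1 (i, l)))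
      (fun _ => d) cs
      (fun j _ => hAB.trans (Finset.subset_union_left.trans Finset.subset_union_left)) hV3r
      (fun j _ => (T4.acc hB hBa).mono Q
        (Finset.subset_union_left.trans Finset.subset_union_left) hε)
  have T5 := T4.trans t5
  have t45 := t4.trans t5
  have t35 := t3.trans t45
  set X := (bs ∪ cs) ∪ (X1 ∪ (X2 ∪ X3)) with hX_def
  have m1 := T2.1
  have m2 := t3.1
  have m3 := t4.1
  have m4 := t5.1
  have m0 := t1.1
  have m0' := t2.1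
  have hbsI : bs ⊆ Finset.Ico S.n T.n := Finset.Ico_subset_Ico le_rfl (by omega)
  have hcsI : cs ⊆ Finset.Ico S.n T.n := Finset.Ico_subset_Ico (by omega) (by omega)
  have hI3 : Finset.Ico S2.n S3.n ⊆ Finset.Ico S.n T.n := Finset.Ico_subset_Ico m1 (by omega)
  have hI4 : Finset.Ico S3.n S4.n ⊆ Finset.Ico S.n T.n :=
    Finset.Ico_subset_Ico (by omega) (by omega)
  have hI5 : Finset.Ico S4.n T.n ⊆ Finset.Ico S.n T.n :=
    Finset.Ico_subset_Ico (by omega) le_rfl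
  have hX1 : X1 ⊆ X := fun k hk =>
    Finset.mem_union_right _ (Finset.mem_union_left _ hk)
  have hX2 : X2 ⊆ X := fun k hk =>
    Finset.mem_union_right _ (Finset.mem_union_right _ (Finset.mem_union_left _ hk))
  have hX3 : X3 ⊆ X := fun k hk =>
    Finset.mem_union_right _ (Finset.mem_union_right _ (Finset.mem_union_right _ hk))
  have hXb : bs ⊆ X := fun k hk =>
    Finset.mem_union_left _ (Finset.mem_union_left _ hk)
  have hXc : cs ⊆ X := fun k hk =>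
    Finset.mem_union_left _ (Finset.mem_union_right _ hk)
  have hNb : ∀ k ∈ bs, T.N k = A := fun k hk => by
    have hk' := Finset.mem_Ico.1 hk
    rw [t35.2.1 k (by omega), t2.2.1 k hk'.2]
    exact N1 k hk
  have hNc : ∀ k ∈ cs, T.N k = A := fun k hk => by
    have hk' := Finset.mem_Ico.1 hk
    rw [t35.2.1 k (by omega)]
    exact N2 k hk
  refine ⟨T, X, T5, ?_, ?_, ?_⟩
  · refine Finset.union_subset (Finset.union_subset hbsI hcsI)
      (Finset.union_subset (a2.trans hI3) (Finset.union_subset (b2.trans hI4) (c2.trans hI5)))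
  · intro k hk
    rw [hX_def, Finset.mem_union, Finset.mem_union, Finset.mem_union, Finset.mem_union] at hk
    rcases hk with (hk | hk) | (hk | (hk | hk))
    · exact hNb k hk
    · exact hNc k hk
    · rw [t45.2.1 k (Finset.mem_Ico.1 (a2 hk)).2]; exact a3 k hk
    · rw [t5.2.1 k (Finset.mem_Ico.1 (b2 hk)).2]; exact b3 k hk
    · exact c3 k hk
  · intro s hs hsX
    have hLs : ∀ t, lik Q (act Q τ T.N) B s0 t = lik Q (act Q τ S.N) B s0 t :=
      fun t => T5.lik_eq hB s0 t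
    refine ⟨(B ∪ bs.biUnion D2) ∪ cs.biUnion D3, ?_, ?_, ?_⟩
    · refine Finset.union_subset (Finset.union_subset (hB.trans T5.range) ?_) ?_
      · intro k hk
        obtain ⟨i, hi, hk⟩ := Finset.mem_biUnion.1 hk
        exact t5.range (subset_range_of_Ico (b1 i hi) hk)
      · intro k hk
        obtain ⟨l, hl, hk⟩ := Finset.mem_biUnion.1 hk
        exact subset_range_of_Ico (c1 l hl) hk
    · exact (T5.acc hB hBa).mono Q
        (Finset.subset_union_left.trans Finset.subset_union_left) le_rfl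
    · have hcardb : bs.card = h := by rw [hbs_def, Nat.card_Ico, n1]; omega
      have hcardc : cs.card = v := by rw [hcs_def, Nat.card_Ico, n2]; omega
      refine gadget_core σ T A B S.n hAB hB s0 (T5.amb hAr ha) bs cs (Finset.Ico S.n T.n) X
        (fun k hk => ⟨(Finset.mem_Ico.1 hk).1, hNb k hk⟩)
        (fun k hk => ⟨by have := (Finset.mem_Ico.1 hk).1; omega, hNc k hk⟩) ?_
        (fun k hk => (Finset.mem_Ico.1 hk).1) hXb hXc c d δ1 δ2 D1 D2 D3 Bad1 Bad2 Bad3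
        ?_ ?_ ?_ ?_ a5 ?_ b5 ?_ c5 ?_ ?_ ?_ ?_ ?_ ?_ ?_ s ?_ hsX
      · rw [Finset.disjoint_left]
        intro k hk hk'
        have := (Finset.mem_Ico.1 hk).2
        have := (Finset.mem_Ico.1 hk').1
        omega
      · intro j hj
        exact ((a6 j hj).lift t35 t45 (hAr.trans T2.range) (hV1r j hj)
          (subset_range_of_Ico (a1 j hj))).monoX hX1
      · intro j hj
        exact ((b6 j hj).lift t45 t5 (hAr.trans T3.range) (hV2r j hj)
          (subset_range_of_Ico (b1 j hj))).monoX hX2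
      · intro j hj
        exact ((c6 j hj).lift t5 (Step.refl ε T) (hAr.trans T4.range) (hV3r j hj)
          (subset_range_of_Ico (c1 j hj))).monoX hX3
      · exact fun j hj => (a4 j hj).mono hI3
      · exact fun j hj => (b4 j hj).mono hI4
      · exact fun j hj => (c4 j hj).mono hI5
      · rw [hLs, hLs]; exact i0
      · rw [hLs, hLs]; exact i1
      · rw [hLs, hLs]; exact i2
      · rw [hLs, hLs]; exact i3
      · rw [hLs, hLs, hcardb]
        calc _ = Vo * (Q.w σ σ * Q.w σ (!σ) ^ h) * Q.w σ σ ^ (d + 1)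
              + Vo * h * Q.w σ σ ^ (d + 1) * δ1 := by ring
          _ < _ := i4
      · rw [hLs, hLs, hcardb, hcardc]
        have k1 : Vz * (h + v) * Q.w (!σ) σ * δ2 ≤ Vz * (h + v) * Q.w (!σ) σ * δ3 :=
          mul_le_mul_of_nonneg_left (min_le_left _ _) (by positivity)
        calc _ = Vz * (Q.w (!σ) (!σ) ^ h * Q.w (!σ) σ ^ v) * Q.w (!σ) σ
              + Vz * (h + v) * Q.w (!σ) σ * δ2 := by ring
          _ ≤ Vz * (Q.w (!σ) (!σ) ^ h * Q.w (!σ) σ ^ v) * Q.w (!σ) σ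
              + Vz * (h + v) * Q.w (!σ) σ * δ3 := by linarith
          _ < _ := i5
      · rw [hLs, hLs, hcardb, hcardc]
        have k1 : Vo * (h + v) * Q.w σ (!σ) * δ2 ≤ Vo * (h + v) * Q.w σ (!σ) * δ4 :=
          mul_le_mul_of_nonneg_left (min_le_right _ _) (by positivity)
        calc _ = Vo * (Q.w σ (!σ) ^ h * Q.w σ σ ^ v) * Q.w σ (!σ)
              + Vo * (h + v) * Q.w σ (!σ) * δ2 := by ring
          _ ≤ Vo * (Q.w σ (!σ) ^ h * Q.w σ σ ^ v) * Q.w σ (!σ)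
              + Vo * (h + v) * Q.w σ (!σ) * δ4 := by linarith
          _ < _ := i6
      · rw [T5.view_eq hB]; exact hs

end Pool.SL
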