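import Pool.Agent.V11330.SL.Stage

open MeasureTheory ProbabilityTheory Filter Topology

namespace Pool.SL

variable (Q : Par) (τ : Tie)

/-- the sequence of networks -/
noncomputable def nets : (k : ℕ) → {S : Net // Cov Q τ (1 / (k + 1)) S Set.univ}
  | 0 => ⟨Net.empty, by simpa using cov_empty⟩
  | k + 1 =>
    let h := stage (Q := Q) (τ := τ) (ε := 1 / ((k : ℝ) + 1)) (ε' := 1 / (((k + 1 : ℕ) : ℝ) + 1))
      (by
        push_cast
        exact one_div_le_one_div_of_le (by positivity) (by linarith)) (nets k).1 (nets k).2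
      (by positivity)
    ⟨h.choose, h.choose_spec.2.1⟩

lemma nets_step (k : ℕ) : Step Q τ (1 / (k + 1)) (nets Q τ k).1 (nets Q τ (k + 1)).1 := by
  have h := stage (Q := Q) (τ := τ) (ε := 1 / ((k : ℝ) + 1)) (ε' := 1 / (((k + 1 : ℕ) : ℝ) + 1))
      (by
        push_cast
        exact one_div_le_one_div_of_le (by positivity) (by linarith)) (nets Q τ k).1 (nets Q τ k).2
      (by positivity)
  exact h.choose_spec.1

lemma nets_lt (k : ℕ) : (nets Q τ k).1.n < (nets Q τ (k + 1)).1.n := by
  have h := stage (Q := Q) (τ := τ) (ε := 1 / ((k : ℝ) + 1)) (ε' := 1 / (((k + 1 : ℕ) : ℝ) + 1))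
      (by
        push_cast
        exact one_div_le_one_div_of_le (by positivity) (by linarith)) (nets Q τ k).1 (nets Q τ k).2
      (by positivity)
  exact h.choose_spec.2.2

lemma nets_mono : StrictMono fun k => (nets Q τ k).1.n := strictMono_nat_of_lt_succ (nets_lt Q τ)

lemma nets_le (k : ℕ) : k ≤ (nets Q τ k).1.n := (nets_mono Q τ).id_le k

lemma nets_agree {k m : ℕ} (hkm : k ≤ m) {i : ℕ} (hi : i < (nets Q τ k).1.n) :
    (nets Q τ m).1.N i = (nets Q τ k).1.N i := by
  induction m, hkm using Nat.le_induction with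
  | base => rfl
  | succ m hm ih =>
    rw [(nets_step Q τ m).2.1 i (lt_of_lt_of_le hi ((nets_mono Q τ).monotone hm)), ih]

/-- the limiting network -/
noncomputable def limN (i : ℕ) : Finset ℕ := (nets Q τ (i + 1)).1.N i

lemma limN_sub (i : ℕ) : limN Q τ i ⊆ Finset.range i := (nets Q τ (i + 1)).1.sub i

lemma limN_eq {k i : ℕ} (hi : i < (nets Q τ k).1.n) : limN Q τ i = (nets Q τ k).1.N i := by
  unfold limN
  rcases le_total k (i + 1) with h | h
  · exact nets_agree Q τ h hi
  · exact (nets_agree Q τ h (nets_le Q τ (i + 1))).symm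

lemma act_limN {k i : ℕ} (hi : i < (nets Q τ k).1.n) :
    act Q τ (limN Q τ) i = act Q τ (nets Q τ k).1.N i :=
  act_congr Q τ fun _ hj => limN_eq Q τ (lt_of_le_of_lt hj hi)

lemma acc_limN {k i : ℕ} (hi : (nets Q τ k).1.n ≤ i) :
    Acc Q (act Q τ (limN Q τ)) (limN Q τ i) (1 / (k + 1)) := by
  -- find the stage of `i`
  obtain ⟨m, hkm, hm1, hm2⟩ : ∃ m, k ≤ m ∧ (nets Q τ m).1.n ≤ i ∧ i < (nets Q τ (m + 1)).1.n := by
    classical
    have hex : ∃ m, i < (nets Q τ m).1.n := ⟨i + 1, nets_le Q τ (i + 1)⟩
    have h1 := Nat.find_spec hex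
    have h0 : k < Nat.find hex := by
      by_contra hcon
      have := (nets_mono Q τ).monotone (not_lt.1 hcon)
      have h2 : (nets Q τ (Nat.find hex)).1.n ≤ (nets Q τ k).1.n := this
      omega
    obtain ⟨m, hm⟩ : ∃ m, Nat.find hex = m + 1 := ⟨Nat.find hex - 1, by omega⟩
    refine ⟨m, by omega, ?_, by rw [← hm]; exact h1⟩
    exact not_lt.1 (Nat.find_min hex (by omega))
  have h3 := (nets_step Q τ m).2.2 i hm1 hm2
  rw [limN_eq Q τ hm2]
  refine (h3.mono Q (Finset.Subset.refl _) ?_).congr Q fun j hj => ?_
  · exact one_div_le_one_div_of_le (by positivity) (by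
      have : (k : ℝ) ≤ m := by exact_mod_cast hkm
      linarith)
  · have hj' := Finset.mem_range.1 ((nets Q τ (m + 1)).1.sub i hj)
    exact (act_limN Q τ (hj'.trans hm2)).symm

/-- optimality of the Bayesian decision -/
lemma error_le {N : ℕ → Finset ℕ} (hN : ∀ i, N i ⊆ Finset.range i) (n : ℕ) {ε : ℝ}
    (h : Acc Q (act Q τ N) (N n) ε) :
    (P Q true).real {s | act Q τ N n s = false} + (P Q false).real {s | act Q τ N n s = true}
      ≤ 2 * ε := by
  classical
  obtain ⟨G, hG, hG1, hG2⟩ := h
  let S : Net := ⟨n, N, hN⟩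
  set a := act Q τ N with ha
  -- atoms
  let f : Sig → Finset ℕ × Bool := fun s => ((N n).filter fun j => a j s = true, s n)
  set Y : Finset (Finset ℕ × Bool) := (N n).powerset ×ˢ Finset.univ with hY
  have hfY : ∀ s, f s ∈ Y := fun s => by
    simp [hY, f]
  have hfib : ∀ s s', f s' = f s ↔ (s' ∈ view a (N n) s ∧ s' n = s n) := by
    intro s s'
    rw [Prod.ext_iff]
    refine and_congr ?_ Iff.rfl
    constructor
    · intro h j hj
      have h1 : j ∈ (N n).filter (fun j => a j s' = true) ↔
          j ∈ (N n).filter (fun j => a j s = true) := by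
        have : (N n).filter (fun j => a j s' = true) = (N n).filter (fun j => a j s = true) := h
        rw [this]
      simp only [Finset.mem_filter, hj, true_and] at h1
      cases h2 : a j s' <;> cases h3 : a j s <;> simp_all
    · intro h
      exact Finset.filter_congr fun j hj => by rw [h j hj]
  have hdepf : ∀ s, Dep (Finset.range (n + 1)) {s' | f s' = f s} := by
    intro s s1 s2 h12
    have h1 : s1 n = s2 n := h12 n (by simp)
    have h2 : ∀ j ∈ N n, a j s1 = a j s2 := fun j hj => by
      have hj' := Finset.mem_range.1 (hN n hj)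
      exact act_dep Q τ (fun i _ => hN i) fun i hi => h12 i (Finset.mem_range.2 (by omega))
    have h3 : f s1 = f s2 := by
      rw [hfib]
      exact ⟨h2, h1⟩
    simp only [Set.mem_ofPred_eq, h3]
  -- decomposition of probabilities
  have hdec : ∀ (t : Bool) (E : Set Sig), (P Q t).real E
      ≤ ∑ y ∈ Y, (P Q t).real (E ∩ f ⁻¹' {y}) := by
    intro t E
    refine (measureReal_mono (s₂ := ⋃ y ∈ Y, (E ∩ f ⁻¹' {y})) ?_ (measure_ne_top _ _)).trans
      (measureReal_biUnion_finset_le _ _)
    intro s hs
    exact Set.mem_iUnion₂.2 ⟨f s, hfY s, hs, rfl⟩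
  have hmeas : ∀ y, MeasurableSet (f ⁻¹' {y}) := by
    intro y
    by_cases hy : ∃ s, f s = y
    · obtain ⟨s, rfl⟩ := hy
      exact (hdepf s).measurable
    · have : f ⁻¹' {y} = ∅ := by
        ext s
        simp only [Set.mem_preimage, Set.mem_singleton_iff, Set.mem_empty_iff_false, iff_false]
        exact fun h => hy ⟨s, h⟩
      rw [this]; exact MeasurableSet.empty
  have hGmeas : MeasurableSet G := by
    have : Dep (Finset.range n) G := by
      intro s1 s2 h12
      refine hG s1 s2 fun j hj => ?_
      have hj' := Finset.mem_range.1 (hN n hj)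
      exact act_dep Q τ (fun i _ => hN i) fun i hi => h12 i (Finset.mem_range.2 (by omega))
    exact this.measurable
  have hdec' : ∀ (t : Bool) (E : Set Sig), MeasurableSet E →
      ∑ y ∈ Y, (P Q t).real (E ∩ f ⁻¹' {y}) ≤ (P Q t).real E := by
    intro t E hE
    rw [← measureReal_biUnion_finset]
    · refine measureReal_mono ?_ (measure_ne_top _ _)
      intro s hs
      obtain ⟨y, _, h⟩ := Set.mem_iUnion₂.1 hs
      exact h.1
    · intro y1 _ y2 _ hne
      refine Set.disjoint_left.2 fun s h1 h2 => hne ?_
      rw [← h1.2, ← h2.2]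
    · exact fun y _ => hE.inter (hmeas y)
  -- comparison on each atom
  have hatom : ∀ y ∈ Y,
      (P Q true).real ({s | a n s = false} ∩ f ⁻¹' {y})
        + (P Q false).real ({s | a n s = true} ∩ f ⁻¹' {y})
      ≤ (P Q true).real (Gᶜ ∩ f ⁻¹' {y}) + (P Q false).real (G ∩ f ⁻¹' {y}) := by
    intro y _
    by_cases hy : ∃ s, f s = y
    · obtain ⟨s, rfl⟩ := hy
      have hA : ∀ s', f s' = f s → a n s' = a n s := by
        intro s' hs'
        obtain ⟨h1, h2⟩ := (hfib s s').1 hs'
        rw [ha, act_eq Q τ (hN n), act_eq Q τ (hN n)]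
        unfold dec
        rw [lik_eq_of_mem Q h1, lik_eq_of_mem Q h1, h2]
        have : ((N n).filter fun j => act Q τ N j s' = true)
            = ((N n).filter fun j => act Q τ N j s = true) :=
          Finset.filter_congr fun j hj => by rw [← ha, h1 j hj]
        rw [this]
      have hGa : ∀ s', f s' = f s → (s' ∈ G ↔ s ∈ G) := by
        intro s' hs'
        exact hG s' s fun j hj => ((hfib s s').1 hs').1 j hj
      have hPt : ∀ t, (P Q t).real (f ⁻¹' {f s}) = lik Q a (N n) s t * Q.w t (s n) := by
        intro t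
        have h1 : f ⁻¹' {f s} = view a (N n) s ∩ {s' | ∀ k ∈ ({n} : Finset ℕ), s' k = s k} := by
          ext s'
          rw [Set.mem_preimage, Set.mem_singleton_iff, hfib]
          simp
        rw [h1]
        have h2 := P_world (Q := Q) (τ := τ) S (B := N n) (F := {n}) (n := n) (hN n)
          (by simp) s s t
        rw [Finset.prod_singleton] at h2
        exact h2
      have hfull : ∀ (t : Bool) (E : Set Sig), (∀ s', f s' = f s → s' ∈ E) →
          (P Q t).real (E ∩ f ⁻¹' {f s}) = lik Q a (N n) s t * Q.w t (s n) := by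
        intro t E hE
        rw [← hPt]
        congr 1
        ext s'
        exact ⟨fun h => h.2, fun h => ⟨hE s' h, h⟩⟩
      have hnone : ∀ (t : Bool) (E : Set Sig), (∀ s', f s' = f s → s' ∉ E) →
          (P Q t).real (E ∩ f ⁻¹' {f s}) = 0 := by
        intro t E hE
        have : E ∩ f ⁻¹' {f s} = ∅ := by
          ext s'
          simp only [Set.mem_inter_iff, Set.mem_empty_iff_false, iff_false]
          exact fun h => hE s' h.2 h.1
        rw [this]; simp
      have hrhs : min (lik Q a (N n) s true * Q.w true (s n))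
            (lik Q a (N n) s false * Q.w false (s n))
          ≤ (P Q true).real (Gᶜ ∩ f ⁻¹' {f s}) + (P Q false).real (G ∩ f ⁻¹' {f s}) := by
        by_cases hs : s ∈ G
        · rw [hnone true Gᶜ (fun s' h h' => h' ((hGa s' h).2 hs)),
            hfull false G (fun s' h => (hGa s' h).2 hs), zero_add]
          exact min_le_right _ _
        · rw [hfull true Gᶜ (fun s' h h' => hs ((hGa s' h).1 h')),
            hnone false G (fun s' h h' => hs ((hGa s' h).1 h')), add_zero]
          exact min_le_left _ _
      refine le_trans ?_ hrhs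
      cases hcase : a n s
      · rw [hfull true _ (fun s' h => by
            show a n s' = false
            rw [hA s' h, hcase]),
          hnone false _ (fun s' h h' => by
            have h'' : a n s' = true := h'
            rw [hA s' h, hcase] at h''
            exact Bool.noConfusion h''), add_zero]
        refine le_min le_rfl ?_
        by_contra hcon
        have h1 := dec_of_lt Q τ (a := a) (n := n) (A := N n) (s := s) true (not_le.1 hcon)
        rw [ha, act_eq Q τ (hN n)] at hcase
        rw [← ha, h1] at hcase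
        exact Bool.noConfusion hcase
      · rw [hnone true _ (fun s' h h' => by
            have h'' : a n s' = false := h'
            rw [hA s' h, hcase] at h''
            exact Bool.noConfusion h''),
          hfull false _ (fun s' h => by
            show a n s' = true
            rw [hA s' h, hcase]), zero_add]
        refine le_min ?_ le_rfl
        by_contra hcon
        have h1 := dec_of_lt Q τ (a := a) (n := n) (A := N n) (s := s) false (not_le.1 hcon)
        rw [ha, act_eq Q τ (hN n)] at hcase
        rw [← ha, h1] at hcase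
        exact Bool.noConfusion hcase
    · have : f ⁻¹' {y} = ∅ := by
        ext s
        simp only [Set.mem_preimage, Set.mem_singleton_iff, Set.mem_empty_iff_false, iff_false]
        exact fun h => hy ⟨s, h⟩
      simp [this]
  calc _ ≤ ∑ y ∈ Y, (P Q true).real ({s | a n s = false} ∩ f ⁻¹' {y})
        + ∑ y ∈ Y, (P Q false).real ({s | a n s = true} ∩ f ⁻¹' {y}) :=
        add_le_add (hdec true _) (hdec false _)
    _ = ∑ y ∈ Y, ((P Q true).real ({s | a n s = false} ∩ f ⁻¹' {y})
        + (P Q false).real ({s | a n s = true} ∩ f ⁻¹' {y})) := Finset.sum_add_distrib.symm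
    _ ≤ ∑ y ∈ Y, ((P Q true).real (Gᶜ ∩ f ⁻¹' {y}) + (P Q false).real (G ∩ f ⁻¹' {y})) :=
        Finset.sum_le_sum hatom
    _ = ∑ y ∈ Y, (P Q true).real (Gᶜ ∩ f ⁻¹' {y})
        + ∑ y ∈ Y, (P Q false).real (G ∩ f ⁻¹' {y}) := Finset.sum_add_distrib
    _ ≤ (P Q true).real Gᶜ + (P Q false).real G :=
        add_le_add (hdec' true _ hGmeas.compl) (hdec' false _ hGmeas)
    _ ≤ 2 * ε := by linarith

/-- the errors in the limiting network tend to zero -/
lemma error_tendsto :
    Tendsto (fun n => (P Q true).real {s | act Q τ (limN Q τ) n s = false}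
      + (P Q false).real {s | act Q τ (limN Q τ) n s = true}) atTop (𝓝 0) := by
  rw [Metric.tendsto_atTop]
  intro ε hε
  obtain ⟨k, hk⟩ := exists_nat_one_div_lt (half_pos hε)
  refine ⟨(nets Q τ k).1.n, fun n hn => ?_⟩
  have h1 := error_le Q τ (limN_sub Q τ) n (acc_limN Q τ hn)
  rw [Real.dist_0_eq_abs, abs_of_nonneg (add_nonneg measureReal_nonneg measureReal_nonneg)]
  linarith

end Pool.SL
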