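import Pool.Agent.V11330.SL.Basic

open MeasureTheory ProbabilityTheory

namespace Pool.SL

/-- a tie-breaking rule: it may depend on the agent's index, on the neighbourhood, on the private
signal and on the set of neighbours who chose `true`. -/
abbrev Tie := ℕ → Finset ℕ → Bool → Finset ℕ → Bool

variable (Q : Par) (τ : Tie)

/-- the signal sequences which lead to the same actions on `A` as `s` -/
def view (a : ℕ → Sig → Bool) (A : Finset ℕ) (s : Sig) : Set Sig := {s' | ∀ j ∈ A, a j s' = a j s}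

/-- likelihood of the actions seen on `A` -/
noncomputable def lik (a : ℕ → Sig → Bool) (A : Finset ℕ) (s : Sig) (t : Bool) : ℝ :=
  (P Q t).real (view a A s)

/-- the Bayesian decision of agent `n` with neighbourhood `A` -/
noncomputable def dec (a : ℕ → Sig → Bool) (n : ℕ) (A : Finset ℕ) (s : Sig) : Bool :=
  if lik Q a A s false * Q.w false (s n) < lik Q a A s true * Q.w true (s n) then true
  else if lik Q a A s true * Q.w true (s n) < lik Q a A s false * Q.w false (s n) then false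
  else τ n A (s n) (A.filter fun j => a j s = true)

/-- actions of the first agents -/
noncomputable def hist (N : ℕ → Finset ℕ) : ℕ → ℕ → Sig → Bool
  | 0 => fun _ _ => false
  | n + 1 => fun j => if j = n then dec Q τ (hist N n) n (N n) else hist N n j

/-- the action of agent `j` -/
noncomputable def act (N : ℕ → Finset ℕ) (j : ℕ) : Sig → Bool := hist Q τ N (j + 1) j

lemma hist_lt (N : ℕ → Finset ℕ) {j m : ℕ} (h : j < m) : hist Q τ N m j = act Q τ N j := by
  induction m with
  | zero => omega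
  | succ m ih =>
    rcases Nat.lt_succ_iff_lt_or_eq.1 h with h1 | h1
    · rw [← ih h1]
      show (if j = m then _ else _) = _
      rw [if_neg (by omega)]
    · subst h1; rfl

lemma view_congr {a a' : ℕ → Sig → Bool} {A : Finset ℕ} (h : ∀ j ∈ A, a j = a' j) (s : Sig) :
    view a A s = view a' A s := by
  ext s'
  simp only [view, Set.mem_ofPred_eq]
  exact forall₂_congr fun j hj => by rw [h j hj]

lemma lik_congr {a a' : ℕ → Sig → Bool} {A : Finset ℕ} (h : ∀ j ∈ A, a j = a' j) (s : Sig)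
    (t : Bool) : lik Q a A s t = lik Q a' A s t := by
  unfold lik; rw [view_congr h]

lemma dec_congr {a a' : ℕ → Sig → Bool} {A : Finset ℕ} (h : ∀ j ∈ A, a j = a' j) (n : ℕ)
    (s : Sig) : dec Q τ a n A s = dec Q τ a' n A s := by
  unfold dec
  rw [lik_congr Q h, lik_congr Q h]
  have : (A.filter fun j => a j s = true) = (A.filter fun j => a' j s = true) :=
    Finset.filter_congr fun j hj => by rw [h j hj]
  rw [this]

/-- networks -/
structure Net where
  n : ℕ
  N : ℕ → Finset ℕ
  sub : ∀ i, N i ⊆ Finset.range i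

lemma act_eq {N : ℕ → Finset ℕ} {n : ℕ} (hN : N n ⊆ Finset.range n) (s : Sig) :
    act Q τ N n s = dec Q τ (act Q τ N) n (N n) s := by
  show (if n = n then dec Q τ (hist Q τ N n) n (N n) else _) s = _
  rw [if_pos rfl]
  exact dec_congr Q τ (fun j hj => hist_lt Q τ N (Finset.mem_range.1 (hN hj))) n s

lemma hist_congr {N N' : ℕ → Finset ℕ} {m : ℕ} (h : ∀ i < m, N i = N' i) :
    hist Q τ N m = hist Q τ N' m := by
  induction m with
  | zero => rfl
  | succ m ih =>
    have h1 := ih fun i hi => h i (by omega)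
    funext j
    show (if j = m then dec Q τ (hist Q τ N m) m (N m) else hist Q τ N m j)
      = (if j = m then dec Q τ (hist Q τ N' m) m (N' m) else hist Q τ N' m j)
    rw [h1, h m (by omega)]

lemma act_congr {N N' : ℕ → Finset ℕ} {j : ℕ} (h : ∀ i ≤ j, N i = N' i) :
    act Q τ N j = act Q τ N' j := by
  unfold act
  rw [hist_congr Q τ (m := j + 1) (fun i hi => h i (by omega))]

lemma view_eq_of_mem {a : ℕ → Sig → Bool} {A : Finset ℕ} {s s' : Sig} (h : s' ∈ view a A s) :
    view a A s' = view a A s := by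
  ext s''
  simp only [view, Set.mem_ofPred_eq] at h ⊢
  exact forall₂_congr fun j hj => by rw [h j hj]

lemma mem_view_self (a : ℕ → Sig → Bool) (A : Finset ℕ) (s : Sig) : s ∈ view a A s :=
  fun _ _ => rfl

lemma view_anti {a : ℕ → Sig → Bool} {A B : Finset ℕ} (h : A ⊆ B) (s : Sig) :
    view a B s ⊆ view a A s := fun _ hs' j hj => hs' j (h hj)

lemma lik_eq_of_mem {a : ℕ → Sig → Bool} {A : Finset ℕ} {s s' : Sig} (h : s' ∈ view a A s)
    (t : Bool) : lik Q a A s' t = lik Q a A s t := by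
  unfold lik; rw [view_eq_of_mem h]

/-- the actions of agents only depend on the earlier signals -/
lemma act_dep {N : ℕ → Finset ℕ} {n : ℕ} (hN : ∀ i ≤ n, N i ⊆ Finset.range i) {s s' : Sig}
    (h : ∀ i ≤ n, s i = s' i) : act Q τ N n s = act Q τ N n s' := by
  induction n using Nat.strong_induction_on with
  | _ n ih =>
    rw [act_eq Q τ (hN n le_rfl), act_eq Q τ (hN n le_rfl)]
    have h1 : ∀ j ∈ N n, act Q τ N j s = act Q τ N j s' := fun j hj => by
      have hj' := Finset.mem_range.1 (hN n le_rfl hj)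
      exact ih j hj' (fun i hi => hN i (by omega)) fun i hi => h i (by omega)
    have h2 : s' ∈ view (act Q τ N) (N n) s := fun j hj => (h1 j hj).symm
    unfold dec
    rw [lik_eq_of_mem Q h2, lik_eq_of_mem Q h2, h n le_rfl]
    have : ((N n).filter fun j => act Q τ N j s = true)
        = ((N n).filter fun j => act Q τ N j s' = true) :=
      Finset.filter_congr fun j hj => by rw [h1 j hj]
    rw [this]

lemma dep_view (S : Net) {A : Finset ℕ} {n : ℕ} (hA : A ⊆ Finset.range n) (s : Sig) :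
    Dep (Finset.range n) (view (act Q τ S.N) A s) := by
  intro s1 s2 h
  simp only [view, Set.mem_ofPred_eq]
  refine forall₂_congr fun j hj => ?_
  have hj' := Finset.mem_range.1 (hA hj)
  rw [act_dep Q τ (fun i _ => S.sub i) (fun i hi => h i (Finset.mem_range.2 (by omega)))]

lemma lik_pos (S : Net) (A : Finset ℕ) (s : Sig) (t : Bool) :
    0 < lik Q (act Q τ S.N) A s t := by
  obtain ⟨n, hn⟩ : ∃ n, A ⊆ Finset.range n := by
    refine ⟨A.sup id + 1, fun x hx => Finset.mem_range.2 ?_⟩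
    have := Finset.le_sup (f := id) hx
    simp only [id] at this
    omega
  unfold lik
  have h1 : (P Q t).real {s' : Sig | ∀ i ∈ Finset.range n, s' i = s i}
      ≤ (P Q t).real (view (act Q τ S.N) A s) := by
    refine measureReal_mono (fun s' hs' j hj => ?_)
    have hj' := Finset.mem_range.1 (hn hj)
    exact act_dep Q τ (fun i _ => S.sub i) (fun i hi => hs' i (Finset.mem_range.2 (by omega)))
  rw [P_cyl] at h1
  exact lt_of_lt_of_le (Finset.prod_pos fun i _ => Q.pos _ _) h1

lemma dec_of_lt {a : ℕ → Sig → Bool} {n : ℕ} {A : Finset ℕ} {s : Sig} (b : Bool)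
    (h : lik Q a A s (!b) * Q.w (!b) (s n) < lik Q a A s b * Q.w b (s n)) :
    dec Q τ a n A s = b := by
  unfold dec
  cases b
  · simp only [Bool.not_false] at h
    rw [if_neg (not_lt.2 h.le), if_pos h]
  · simp only [Bool.not_true] at h
    rw [if_pos h]

/-- the view on `A` leaves the observer undecided: the own signal decides -/
def Amb (a : ℕ → Sig → Bool) (A : Finset ℕ) (s : Sig) : Prop :=
  ∀ b, lik Q a A s (!b) * Q.w (!b) b < lik Q a A s b * Q.w b b

lemma dec_amb {a : ℕ → Sig → Bool} {A : Finset ℕ} {s : Sig} (h : Amb Q a A s) (n : ℕ) :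
    dec Q τ a n A s = s n := dec_of_lt Q τ (s n) (h (s n))

lemma Amb.of_mem {a : ℕ → Sig → Bool} {A : Finset ℕ} {s s' : Sig} (h : Amb Q a A s)
    (hs : s' ∈ view a A s) : Amb Q a A s' := by
  intro b
  rw [lik_eq_of_mem Q hs, lik_eq_of_mem Q hs]
  exact h b

lemma Amb.congr {a a' : ℕ → Sig → Bool} {A : Finset ℕ} {s : Sig} (h : Amb Q a A s)
    (h' : ∀ j ∈ A, a j = a' j) : Amb Q a' A s := by
  intro b
  rw [← lik_congr Q h', ← lik_congr Q h']
  exact h b

/-- an observer of the actions on `A` errs with probability at most `ε` -/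
def Acc (a : ℕ → Sig → Bool) (A : Finset ℕ) (ε : ℝ) : Prop :=
  ∃ G : Set Sig, (∀ s s', (∀ j ∈ A, a j s = a j s') → (s ∈ G ↔ s' ∈ G)) ∧
    (P Q true).real Gᶜ ≤ ε ∧ (P Q false).real G ≤ ε

lemma Acc.mono {a : ℕ → Sig → Bool} {A B : Finset ℕ} {ε ε' : ℝ} (h : Acc Q a A ε)
    (hAB : A ⊆ B) (hε : ε ≤ ε') : Acc Q a B ε' := by
  obtain ⟨G, h1, h2, h3⟩ := h
  exact ⟨G, fun s s' hs => h1 s s' fun j hj => hs j (hAB hj), h2.trans hε, h3.trans hε⟩

lemma Acc.congr {a a' : ℕ → Sig → Bool} {A : Finset ℕ} {ε : ℝ} (h : Acc Q a A ε)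
    (h' : ∀ j ∈ A, a j = a' j) : Acc Q a' A ε := by
  obtain ⟨G, h1, h2, h3⟩ := h
  exact ⟨G, fun s s' hs => h1 s s' fun j hj => by rw [h' j hj]; exact hs j hj, h2, h3⟩

/-- `S'` extends `S` and all new agents see enough to err with probability at most `ε` -/
def Step (ε : ℝ) (S S' : Net) : Prop :=
  S.n ≤ S'.n ∧ (∀ i < S.n, S'.N i = S.N i) ∧
    ∀ k, S.n ≤ k → k < S'.n → Acc Q (act Q τ S'.N) (S'.N k) ε

variable {Q τ}

lemma Step.refl (ε : ℝ) (S : Net) : Step Q τ ε S S :=
  ⟨le_rfl, fun _ _ => rfl, fun k h1 h2 => absurd h2 (by omega)⟩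

lemma Step.act_lt {ε : ℝ} {S S' : Net} (h : Step Q τ ε S S') {j : ℕ} (hj : j < S.n) :
    act Q τ S.N j = act Q τ S'.N j :=
  act_congr Q τ fun i hi => (h.2.1 i (by omega)).symm

lemma Step.act_mem {ε : ℝ} {S S' : Net} (h : Step Q τ ε S S') {A : Finset ℕ}
    (hA : A ⊆ Finset.range S.n) : ∀ j ∈ A, act Q τ S.N j = act Q τ S'.N j :=
  fun _ hj => h.act_lt (Finset.mem_range.1 (hA hj))

lemma Step.trans {ε : ℝ} {S S' S'' : Net} (h : Step Q τ ε S S') (h' : Step Q τ ε S' S'') :
    Step Q τ ε S S'' := by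
  refine ⟨h.1.trans h'.1, fun i hi => by rw [h'.2.1 i (lt_of_lt_of_le hi h.1), h.2.1 i hi],
    fun k h1 h2 => ?_⟩
  by_cases hk : k < S'.n
  · have := h.2.2 k h1 hk
    rw [h'.2.1 k hk]
    refine Acc.congr Q this (h'.act_mem ((S'.sub k).trans ?_))
    exact Finset.range_subset_range.2 hk.le
  · exact h'.2.2 k (by omega) h2

lemma Step.mono {ε ε' : ℝ} {S S' : Net} (h : Step Q τ ε S S') (hε : ε ≤ ε') :
    Step Q τ ε' S S' :=
  ⟨h.1, h.2.1, fun k h1 h2 => (h.2.2 k h1 h2).mono Q (Finset.Subset.refl _) hε⟩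

lemma Step.view_eq {ε : ℝ} {S S' : Net} (h : Step Q τ ε S S') {A : Finset ℕ}
    (hA : A ⊆ Finset.range S.n) (s : Sig) :
    view (act Q τ S'.N) A s = view (act Q τ S.N) A s :=
  (view_congr (h.act_mem hA) s).symm

lemma Step.lik_eq {ε : ℝ} {S S' : Net} (h : Step Q τ ε S S') {A : Finset ℕ}
    (hA : A ⊆ Finset.range S.n) (s : Sig) (t : Bool) :
    lik Q (act Q τ S'.N) A s t = lik Q (act Q τ S.N) A s t :=
  (lik_congr Q (h.act_mem hA) s t).symm

lemma Step.amb {ε : ℝ} {S S' : Net} (h : Step Q τ ε S S') {A : Finset ℕ}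
    (hA : A ⊆ Finset.range S.n) {s : Sig} (ha : Amb Q (act Q τ S.N) A s) :
    Amb Q (act Q τ S'.N) A s := ha.congr Q (h.act_mem hA)

lemma Step.acc {ε δ : ℝ} {S S' : Net} (h : Step Q τ ε S S') {A : Finset ℕ}
    (hA : A ⊆ Finset.range S.n) (ha : Acc Q (act Q τ S.N) A δ) :
    Acc Q (act Q τ S'.N) A δ := ha.congr Q (h.act_mem hA)

lemma Step.range {ε : ℝ} {S S' : Net} (h : Step Q τ ε S S') :
    Finset.range S.n ⊆ Finset.range S'.n := Finset.range_subset_range.2 h.1

/-- append one agent -/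
def Net.app (S : Net) (A : Finset ℕ) (hA : A ⊆ Finset.range S.n) : Net where
  n := S.n + 1
  N := fun i => if i = S.n then A else S.N i
  sub := by
    intro i
    by_cases h : i = S.n
    · rw [if_pos h, h]; exact hA
    · rw [if_neg h]; exact S.sub i

lemma step_app {ε : ℝ} (S : Net) (A : Finset ℕ) (hA : A ⊆ Finset.range S.n)
    (h : Acc Q (act Q τ S.N) A ε) : Step Q τ ε S (S.app A hA) := by
  have h1 : ∀ i < S.n, (S.app A hA).N i = S.N i := fun i hi => by
    show (if i = S.n then A else S.N i) = _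
    rw [if_neg (by omega)]
  refine ⟨Nat.le_succ _, h1, fun k hk1 hk2 => ?_⟩
  have hk : k = S.n := by
    change k < S.n + 1 at hk2
    omega
  subst hk
  have h2 : (S.app A hA).N S.n = A := if_pos rfl
  rw [h2]
  refine h.congr Q fun j hj => ?_
  exact act_congr Q τ fun i hi => (h1 i (lt_of_le_of_lt hi (Finset.mem_range.1 (hA hj)))).symm

/-- agents whose neighbourhood `A` leaves them undecided follow their own signal -/
lemma act_fresh (S : Net) {A : Finset ℕ} {k : ℕ} {s : Sig} (hk : S.N k = A)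
    (ha : Amb Q (act Q τ S.N) A s) : act Q τ S.N k s = s k := by
  rw [act_eq Q τ (S.sub k), hk]
  exact dec_amb Q τ ha k

/-- append `d` agents with neighbourhood `A` -/
lemma supply {ε : ℝ} (S : Net) (A : Finset ℕ) (hA : A ⊆ Finset.range S.n)
    (h : Acc Q (act Q τ S.N) A ε) (d : ℕ) :
    ∃ S' : Net, Step Q τ ε S S' ∧ S'.n = S.n + d ∧ ∀ k ∈ Finset.Ico S.n S'.n, S'.N k = A := by
  induction d with
  | zero => exact ⟨S, Step.refl _ _, rfl, fun k hk => by simp at hk⟩
  | succ d ih =>
    obtain ⟨S', h1, h2, h3⟩ := ih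
    have hA' : A ⊆ Finset.range S'.n := hA.trans h1.range
    have h4 := step_app S' A hA' (h1.acc hA h)
    refine ⟨S'.app A hA', h1.trans h4, ?_, fun k hk => ?_⟩
    · show S'.n + 1 = _
      omega
    · rw [Finset.mem_Ico] at hk
      have hk2 : k < S'.n + 1 := hk.2
      by_cases hkn : k < S'.n
      · rw [h4.2.1 k hkn]
        exact h3 k (Finset.mem_Ico.2 ⟨hk.1, hkn⟩)
      · have : k = S'.n := by omega
        subst this
        exact if_pos rfl

end Pool.SL
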