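import Pool.Agent.V11330.SL.Complete

open MeasureTheory ProbabilityTheory

namespace Pool.SL

variable {Q : Par} {τ : Tie}

variable (Q) in
/-- the Bhattacharyya coefficient of the two signal laws -/
noncomputable def bhat : ℝ :=
  √(Q.w true true * Q.w false true) + √(Q.w true false * Q.w false false)

lemma bhat_nonneg : 0 ≤ bhat Q := add_nonneg (Real.sqrt_nonneg _) (Real.sqrt_nonneg _)

lemma sqrt_mul_lt {x y : ℝ} (hx : 0 < x) (hy : 0 < y) (hxy : x ≠ y) :
    √(x * y) < (x + y) / 2 := by
  rw [Real.sqrt_lt' (by positivity)]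
  have : 0 < (x - y) ^ 2 := by
    have := sub_ne_zero.2 hxy
    positivity
  nlinarith

lemma bhat_lt_one : bhat Q < 1 := by
  unfold bhat
  have h1 := sqrt_mul_lt (Q.pos true true) (Q.pos false true) (Q.lt true).ne'
  have h2 := sqrt_mul_lt (Q.pos true false) (Q.pos false false) (Q.lt false).ne
  have h3 := Q.sum true
  have h4 := Q.sum false
  linarith

lemma sum_powerset_prod (F : Finset ℕ) (g : Bool → ℝ) :
    ∑ u ∈ F.powerset, ∏ k ∈ F, g (decide (k ∈ u)) = (g true + g false) ^ F.card := by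
  classical
  rw [← Finset.prod_const, Finset.prod_add]
  refine Finset.sum_congr rfl fun u hu => ?_
  rw [Finset.mem_powerset] at hu
  rw [← Finset.prod_sdiff hu, mul_comm]
  congr 1
  · refine Finset.prod_congr rfl fun k hk => ?_
    rw [decide_eq_true hk]
  · refine Finset.prod_congr rfl fun k hk => ?_
    rw [decide_eq_false (Finset.mem_sdiff.1 hk).2]

lemma test_err (t : Bool) (F : Finset ℕ) :
    (P Q t).real {s | ∏ k ∈ F, Q.w t (s k) ≤ ∏ k ∈ F, Q.w (!t) (s k)} ≤ bhat Q ^ F.card := by
  classical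
  set C : Finset ℕ → Set Sig := fun u => {s | ∀ k ∈ F, s k = decide (k ∈ u)} with hC
  set U := F.powerset.filter fun u =>
    ∏ k ∈ F, Q.w t (decide (k ∈ u)) ≤ ∏ k ∈ F, Q.w (!t) (decide (k ∈ u)) with hU
  have hsub : {s : Sig | ∏ k ∈ F, Q.w t (s k) ≤ ∏ k ∈ F, Q.w (!t) (s k)} ⊆ ⋃ u ∈ U, C u := by
    intro s hs
    have hs' : ∀ k ∈ F, s k = decide (k ∈ F.filter fun k => s k = true) := fun k hk => by
      cases h : s k
      · symm; rw [decide_eq_false_iff_not, Finset.mem_filter]
        rintro ⟨_, h'⟩; rw [h] at h'; exact Bool.noConfusion h'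
      · symm; rw [decide_eq_true_iff, Finset.mem_filter]
        exact ⟨hk, h⟩
    rw [Set.mem_iUnion₂]
    refine ⟨F.filter fun k => s k = true, ?_, hs'⟩
    rw [hU, Finset.mem_filter, Finset.mem_powerset]
    refine ⟨Finset.filter_subset _ _, ?_⟩
    rw [← Finset.prod_congr rfl (fun k hk => by rw [← hs' k hk] :
        ∀ k ∈ F, Q.w t (s k) = Q.w t (decide (k ∈ F.filter fun k => s k = true))),
      ← Finset.prod_congr rfl (fun k hk => by rw [← hs' k hk] :
        ∀ k ∈ F, Q.w (!t) (s k) = Q.w (!t) (decide (k ∈ F.filter fun k => s k = true)))]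
    exact hs
  have hg : ∀ b, √(Q.w t b * Q.w (!t) b) = √(Q.w true b * Q.w false b) := fun b => by
    cases t
    · rw [mul_comm]; rfl
    · rfl
  calc (P Q t).real {s | ∏ k ∈ F, Q.w t (s k) ≤ ∏ k ∈ F, Q.w (!t) (s k)}
      ≤ (P Q t).real (⋃ u ∈ U, C u) := measureReal_mono hsub (measure_ne_top _ _)
    _ ≤ ∑ u ∈ U, (P Q t).real (C u) := measureReal_biUnion_finset_le _ _
    _ = ∑ u ∈ U, ∏ k ∈ F, Q.w t (decide (k ∈ u)) :=
        Finset.sum_congr rfl fun u _ => P_cyl Q t F fun k => decide (k ∈ u)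
    _ ≤ ∑ u ∈ U, ∏ k ∈ F, √(Q.w t (decide (k ∈ u)) * Q.w (!t) (decide (k ∈ u))) := by
        refine Finset.sum_le_sum fun u hu => ?_
        have h1 := (Finset.mem_filter.1 hu).2
        have h0 : 0 ≤ ∏ k ∈ F, Q.w t (decide (k ∈ u)) :=
          Finset.prod_nonneg fun k _ => (Q.pos _ _).le
        have h2 : ∏ k ∈ F, √(Q.w t (decide (k ∈ u)) * Q.w (!t) (decide (k ∈ u)))
            = √((∏ k ∈ F, Q.w t (decide (k ∈ u))) * ∏ k ∈ F, Q.w (!t) (decide (k ∈ u))) := by
          rw [← Finset.prod_mul_distrib, Real.sqrt_prod]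
          exact fun k _ => (mul_pos (Q.pos _ _) (Q.pos _ _)).le
        rw [h2]
        refine Real.le_sqrt_of_sq_le ?_
        rw [sq]
        exact mul_le_mul_of_nonneg_left h1 h0
    _ ≤ ∑ u ∈ F.powerset, ∏ k ∈ F, √(Q.w t (decide (k ∈ u)) * Q.w (!t) (decide (k ∈ u))) := by
        refine Finset.sum_le_sum_of_subset_of_nonneg (Finset.filter_subset _ _) fun u _ _ => ?_
        exact Finset.prod_nonneg fun k _ => Real.sqrt_nonneg _
    _ = bhat Q ^ F.card := by
        rw [sum_powerset_prod F fun b => √(Q.w t b * Q.w (!t) b)]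
        simp only [hg]
        rfl

variable (Q τ) in
/-- the set of agents in `range n` choosing `true` -/
noncomputable def pat (S : Net) (n : ℕ) (s : Sig) : Finset ℕ :=
  (Finset.range n).filter fun j => act Q τ S.N j s = true

lemma pat_eq_iff (S : Net) (n : ℕ) (s s' : Sig) :
    pat Q τ S n s' = pat Q τ S n s ↔ s' ∈ view (act Q τ S.N) (Finset.range n) s := by
  constructor
  · intro h j hj
    have h1 : j ∈ pat Q τ S n s' ↔ j ∈ pat Q τ S n s := by rw [h]
    unfold pat at h1
    simp only [Finset.mem_filter, hj, true_and] at h1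
    cases h2 : act Q τ S.N j s' <;> cases h3 : act Q τ S.N j s <;> simp_all
  · intro h
    unfold pat
    exact Finset.filter_congr fun j hj => by rw [h j hj]

lemma Step.pat_eq {ε : ℝ} {S S' : Net} (h : Step Q τ ε S S') {n : ℕ} (hn : n ≤ S.n) (s : Sig) :
    pat Q τ S' n s = pat Q τ S n s := by
  unfold pat
  refine Finset.filter_congr fun j hj => ?_
  rw [h.act_lt (lt_of_lt_of_le (Finset.mem_range.1 hj) hn)]

lemma improve {ε ε' : ℝ} (S : Net) (hcov : Cov Q τ ε S Set.univ) (hε' : 0 < ε') :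
    ∃ S' : Net, Step Q τ ε S S' ∧ Acc Q (act Q τ S'.N) (Finset.range S'.n) ε' ∧ S.n < S'.n := by
  classical
  -- number of agents per world
  have hβ := bhat_nonneg (Q := Q)
  have hβ1 := bhat_lt_one (Q := Q)
  obtain ⟨y, hy⟩ : ∃ y : ℕ, (2 ^ S.n : ℝ) * bhat Q ^ y < ε' := by
    have h3 := ((tendsto_pow_atTop_nhds_zero_of_lt_one hβ hβ1).const_mul (2 ^ S.n : ℝ))
    rw [mul_zero] at h3
    exact (h3.eventually (gt_mem_nhds hε')).exists
  set η := bhat Q ^ y with hη
  have hη0 : 0 ≤ η := pow_nonneg hβ _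
  have key : ∀ Z : Finset (Finset ℕ), ∃ (S' : Net) (G : Set Sig), Step Q τ ε S S' ∧
      (∀ s s', (∀ j ∈ Finset.range S'.n, act Q τ S'.N j s = act Q τ S'.N j s') →
        (s ∈ G ↔ s' ∈ G)) ∧
      (P Q true).real ({s | pat Q τ S S.n s ∈ Z} ∩ Gᶜ) ≤ Z.card * η ∧
      (P Q false).real ({s | pat Q τ S S.n s ∈ Z} ∩ G) ≤ Z.card * η := by
    intro Z
    induction Z using Finset.induction_on with
    | empty =>
      refine ⟨S, Set.univ, Step.refl _ _, fun _ _ _ => Iff.rfl, ?_, ?_⟩ <;> simp
    | insert z Z hz ih =>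
      obtain ⟨S1, G, t1, g1, g2, g3⟩ := ih
      by_cases hex : ∃ sz, pat Q τ S S.n sz = z
      · obtain ⟨sz, hsz⟩ := hex
        obtain ⟨A, hAr, hA, hamb⟩ := hcov sz trivial
        obtain ⟨S2, t2, n2, N2⟩ := supply S1 A (hAr.trans t1.range) (t1.acc hAr hA) y
        set F := Finset.Ico S1.n S2.n with hF
        have hcard : F.card = y := by rw [hF, Nat.card_Ico, n2]; omega
        have T2 := t1.trans t2
        have hfresh : ∀ s, pat Q τ S S.n s = z → ∀ k ∈ F, act Q τ S2.N k s = s k := by
          intro s hs k hk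
          refine act_fresh S2 (N2 k hk) ?_
          refine (T2.amb hAr hamb).of_mem Q ?_
          rw [T2.view_eq hAr]
          rw [← hsz, pat_eq_iff] at hs
          exact view_anti hAr sz hs
        have hFr : F ⊆ Finset.range S2.n := subset_range_of_Ico (Finset.Subset.refl _)
        refine ⟨S2, {s | (pat Q τ S S.n s = z ∧
            ∏ k ∈ F, Q.w false (act Q τ S2.N k s) < ∏ k ∈ F, Q.w true (act Q τ S2.N k s)) ∨
            (pat Q τ S S.n s ≠ z ∧ s ∈ G)}, T2, ?_, ?_, ?_⟩
        · intro s s' h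
          have e1 : pat Q τ S S.n s = pat Q τ S S.n s' := by
            rw [pat_eq_iff]
            intro j hj
            have := h j (T2.range hj)
            rwa [← T2.act_lt (Finset.mem_range.1 hj)] at this
          have e2 : s ∈ G ↔ s' ∈ G := g1 s s' fun j hj => by
            have := h j (t2.range hj)
            rwa [← t2.act_lt (Finset.mem_range.1 hj)] at this
          have e3 : ∀ t, ∏ k ∈ F, Q.w t (act Q τ S2.N k s) = ∏ k ∈ F, Q.w t (act Q τ S2.N k s') :=
            fun t => Finset.prod_congr rfl fun k hk => by rw [h k (hFr hk)]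
          simp only [Set.mem_ofPred_eq]
          rw [e1, e2, e3, e3]
        · have hsub : {s | pat Q τ S S.n s ∈ insert z Z} ∩ {s | (pat Q τ S S.n s = z ∧
              ∏ k ∈ F, Q.w false (act Q τ S2.N k s) < ∏ k ∈ F, Q.w true (act Q τ S2.N k s)) ∨
              (pat Q τ S S.n s ≠ z ∧ s ∈ G)}ᶜ
              ⊆ ({s | pat Q τ S S.n s ∈ Z} ∩ Gᶜ)
                ∪ {s | ∏ k ∈ F, Q.w true (s k) ≤ ∏ k ∈ F, Q.w (!true) (s k)} := by
            rintro s ⟨h1, h2⟩
            by_cases hs : pat Q τ S S.n s = z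
            · right
              have h3 : ¬ (∏ k ∈ F, Q.w false (act Q τ S2.N k s)
                  < ∏ k ∈ F, Q.w true (act Q τ S2.N k s)) := fun h => h2 (Or.inl ⟨hs, h⟩)
              have h4 : ∀ t, ∏ k ∈ F, Q.w t (act Q τ S2.N k s) = ∏ k ∈ F, Q.w t (s k) :=
                fun t => Finset.prod_congr rfl fun k hk => by rw [hfresh s hs k hk]
              rw [h4, h4] at h3
              exact not_lt.1 h3
            · left
              exact ⟨Finset.mem_of_mem_insert_of_ne h1 hs, fun h => h2 (Or.inr ⟨hs, h⟩)⟩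
          refine (measureReal_mono hsub).trans ((measureReal_union_le _ _).trans ?_)
          have h5 := test_err (Q := Q) true F
          rw [hcard] at h5
          rw [Finset.card_insert_of_notMem hz]
          push_cast
          linarith
        · have hsub : {s | pat Q τ S S.n s ∈ insert z Z} ∩ {s | (pat Q τ S S.n s = z ∧
              ∏ k ∈ F, Q.w false (act Q τ S2.N k s) < ∏ k ∈ F, Q.w true (act Q τ S2.N k s)) ∨
              (pat Q τ S S.n s ≠ z ∧ s ∈ G)}
              ⊆ ({s | pat Q τ S S.n s ∈ Z} ∩ G)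
                ∪ {s | ∏ k ∈ F, Q.w false (s k) ≤ ∏ k ∈ F, Q.w (!false) (s k)} := by
            rintro s ⟨h1, h2⟩
            rcases h2 with ⟨hs, h3⟩ | ⟨hs, h3⟩
            · right
              have h4 : ∀ t, ∏ k ∈ F, Q.w t (act Q τ S2.N k s) = ∏ k ∈ F, Q.w t (s k) :=
                fun t => Finset.prod_congr rfl fun k hk => by rw [hfresh s hs k hk]
              rw [h4, h4] at h3
              exact h3.le
            · left
              exact ⟨Finset.mem_of_mem_insert_of_ne h1 hs, h3⟩
          refine (measureReal_mono hsub).trans ((measureReal_union_le _ _).trans ?_)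
          have h5 := test_err (Q := Q) false F
          rw [hcard] at h5
          rw [Finset.card_insert_of_notMem hz]
          push_cast
          linarith
      · push Not at hex
        refine ⟨S1, G, t1, g1, ?_, ?_⟩
        · have hsub : {s | pat Q τ S S.n s ∈ insert z Z} ∩ Gᶜ
              ⊆ {s | pat Q τ S S.n s ∈ Z} ∩ Gᶜ := by
            rintro s ⟨h1, h2⟩
            exact ⟨Finset.mem_of_mem_insert_of_ne h1 (hex s), h2⟩
          refine (measureReal_mono hsub).trans (g2.trans ?_)
          rw [Finset.card_insert_of_notMem hz]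
          push_cast
          linarith
        · have hsub : {s | pat Q τ S S.n s ∈ insert z Z} ∩ G
              ⊆ {s | pat Q τ S S.n s ∈ Z} ∩ G := by
            rintro s ⟨h1, h2⟩
            exact ⟨Finset.mem_of_mem_insert_of_ne h1 (hex s), h2⟩
          refine (measureReal_mono hsub).trans (g3.trans ?_)
          rw [Finset.card_insert_of_notMem hz]
          push_cast
          linarith
  obtain ⟨S1, G, t1, g1, g2, g3⟩ := key (Finset.range S.n).powerset
  have hall : {s | pat Q τ S S.n s ∈ (Finset.range S.n).powerset} = Set.univ := by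
    ext s
    simp only [Set.mem_ofPred_eq, Set.mem_univ, iff_true, Finset.mem_powerset]
    exact Finset.filter_subset _ _
  rw [hall, Set.univ_inter, Finset.card_powerset, Finset.card_range] at g2 g3
  push_cast at g2 g3
  have hacc : Acc Q (act Q τ S1.N) (Finset.range S1.n) ε' :=
    ⟨G, g1, g2.trans hy.le, g3.trans hy.le⟩
  obtain ⟨A, hAr, hA, -⟩ := hcov (fun _ => true) trivial
  have t2 := step_app S1 A (hAr.trans t1.range) (t1.acc hAr hA)
  refine ⟨_, t1.trans t2, (t2.acc (Finset.Subset.refl _) hacc).mono Q t2.range le_rfl, ?_⟩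
  show S.n < S1.n + 1
  have := t1.1
  omega

/-- One stage of the construction. -/
lemma stage {ε ε' : ℝ} (hε : ε' ≤ ε) (S : Net) (hcov : Cov Q τ ε S Set.univ) (hε' : 0 < ε') :
    ∃ S' : Net, Step Q τ ε S S' ∧ Cov Q τ ε' S' Set.univ ∧ S.n < S'.n := by
  classical
  obtain ⟨S1, t1, acc1, n1⟩ := improve S hcov hε'
  have key : ∀ Z : Finset (Finset ℕ), ∃ S' : Net, Step Q τ ε S1 S' ∧
      Cov Q τ ε' S' {s | pat Q τ S1 S1.n s ∈ Z} := by
    intro Z
    induction Z using Finset.induction_on with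
    | empty => exact ⟨S1, Step.refl _ _, fun s hs => by simp at hs⟩
    | insert z Z hz ih =>
      obtain ⟨S2, t2, cov2⟩ := ih
      by_cases hex : ∃ sz, pat Q τ S1 S1.n sz = z
      · obtain ⟨sz, hsz⟩ := hex
        obtain ⟨A, hAr, hA, hamb⟩ := hcov sz trivial
        have T2 := t1.trans t2
        obtain ⟨S3, t3, cov3⟩ := complete hε S2 A (Finset.range S1.n) sz
          (hAr.trans t1.range) t2.range (T2.acc hAr hA) (t2.acc (Finset.Subset.refl _) acc1)
          (T2.amb hAr hamb)
        refine ⟨S3, t2.trans t3, ((cov2.step t3).union cov3).mono fun s hs => ?_⟩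
        rcases Finset.mem_insert.1 hs with hs | hs
        · right
          rw [t2.view_eq (Finset.Subset.refl _), ← pat_eq_iff, hs, hsz]
        · left; exact hs
      · push Not at hex
        exact ⟨S2, t2, cov2.mono fun s hs => Finset.mem_of_mem_insert_of_ne hs (hex s)⟩
  obtain ⟨S', t', cov'⟩ := key (Finset.range S1.n).powerset
  refine ⟨S', t1.trans t', cov'.mono fun s _ => ?_, lt_of_lt_of_le n1 t'.1⟩
  simp only [Set.mem_ofPred_eq, Finset.mem_powerset]
  exact Finset.filter_subset _ _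

/-- the empty network -/
def Net.empty : Net := ⟨0, fun _ => ∅, fun _ => Finset.empty_subset _⟩

lemma cov_empty : Cov Q τ 1 Net.empty Set.univ := by
  intro s _
  refine ⟨∅, Finset.empty_subset _, ⟨Set.univ, fun _ _ _ => Iff.rfl, by simp, by simp⟩, ?_⟩
  intro b
  have h : ∀ t, lik Q (act Q τ Net.empty.N) ∅ s t = 1 := by
    intro t
    unfold lik view
    simp
  rw [h, h, one_mul, one_mul]
  exact Q.lt b

end Pool.SL
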